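import Pool.Agent.Helper84.MT.Pul
import Pool.Agent.Helper31.EC.Vec

/-! THE CONDITION TOP: the digits of the coordinate `z` of the point have the rate at most `1 - ρ` over the coarser digits
of `z` and the digits of level one of the other coordinates, up to the level `l`; on all events of all extensions. It does
not mention labels. -/

set_option autoImplicit false

namespace Pool.Agent.Helper77.TPX

open Finset Filter Topology Pool.Agent.Helper69.RK Pool.Agent.Helper31.EC Pool.Agent.Helper31.EC.Sp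
open Pool.Agent.Helper40.EL Pool.Agent.Helper89.LX Pool.Agent.Helper84.MT

noncomputable section

variable {S : Sp} {N : ℕ}

/-- the point without the coordinate `z` (replaced by `0`) -/
def oth (Q : S.VV N) (z : Fin N) : S.VV N where
  v := fun k ω i => if i = z then 0 else Q.v k ω i
  bd := by
    obtain ⟨L, hL, hb⟩ := Q.bd
    refine ⟨L, hL, ?_⟩
    filter_upwards [hb, hL.1] with k hk hL0 ω hω i
    split_ifs
    · rw [abs_zero]
      exact hL0
    · exact hk ω hω i

/-- TOP for a point and one law -/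
def TopQ (Q : S.VV N) (z : Fin N) (ρ l : ℝ) : Prop := ∀ a b : ℝ, 0 ≤ a → a ≤ b → b ≤ l →
  h ((Q.co z).dg b) ((Q.co z).dg a ⊔ (oth Q z).dg 1) ≤ (1 - ρ) * (b - a)

/-- TOP on all events of all extensions -/
def TopE (Q : S.VV N) (z : Fin N) (ρ l : ℝ) : Prop := ∀ (T : Sp) (p : Pj T S) (A : ∀ k, (T.F k).Ω → Prop),
  0 < ul (T.pr A) → TopQ (Q.im p A) z ρ l

/-- THE ABSTRACT STEP: `zb`, `za` digits in the rows, `Pt` digits of the other rows, `P1` digits of level one of the other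
coordinates, `ζb`, `ζa` digits of the coordinate; `y` a label over which `P1` has no more information than `Pt` allows -/
theorem topx_abs (zb za Pt P1 ζb ζa : S.L) (y : Lab S) {α β τ : ℝ} (hz : H (up1 y zb) = 0) (ha : za ≤ zb)
    (h8 : Pt ≤ P1) (hn : h P1 Pt ≤ α - β) (h2 : α ≤ H (up1 y P1)) (h3 : H (up1 y Pt) ≤ β)
    (h5 : zb ≤ ζb ⊔ za ⊔ P1) (h6 : ζa ≤ za ⊔ P1) (h7 : h ζb (ζa ⊔ P1) ≤ τ) : h zb (za ⊔ Pt) ≤ τ := by
  have e0 : up1 y zb = ⊥ := by
    apply le_antisymm _ bot_le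
    apply H_strict
    rw [sup_bot_eq, hz, H_bot]
  have k1 : α - β ≤ h P1 (zb ⊔ Pt) := by
    refine le_trans ?_ (h_up1_le y P1 (zb ⊔ Pt))
    rw [up1_sup, e0, bot_sup_eq]
    unfold h
    rw [sup_eq_left.mpr (up1_mono y h8)]
    linarith
  have e1 : P1 ⊔ (za ⊔ Pt) = za ⊔ P1 := by
    rw [sup_left_comm, sup_eq_left.mpr h8]
  have e2 : zb ⊔ (za ⊔ Pt) = zb ⊔ Pt := by
    rw [← sup_assoc, sup_eq_left.mpr ha]
  have k2 : h zb (za ⊔ Pt) ≤ h zb (za ⊔ P1) := by
    have i1 := I_eq zb P1 (za ⊔ Pt)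
    have i2 := I_eq' zb P1 (za ⊔ Pt)
    rw [e1] at i1
    rw [e2] at i2
    have i3 := h_anti (A := P1) (le_sup_right : Pt ≤ za ⊔ Pt)
    linarith
  have k3 : h zb (za ⊔ P1) ≤ h ζb (za ⊔ P1) := by
    have i1 := h_triangle zb ζb (za ⊔ P1)
    have i2 : h zb (ζb ⊔ (za ⊔ P1)) = 0 := by
      apply h_zero
      rw [← sup_assoc]
      exact h5
    linarith
  have k4 : h ζb (za ⊔ P1) ≤ h ζb (ζa ⊔ P1) := h_anti (sup_le h6 le_sup_right)
  linarith

end

end Pool.Agent.Helper77.TPX
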