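import Pool.Agent.Helper77.TPX.Chn

/-! TOP FOR THE ZOOM in the coordinates of flag rows, under one law. -/

set_option autoImplicit false

namespace Pool.Agent.Helper77.TPX

open Finset Filter Topology MvPolynomial Pool.Agent.Helper69.RK Pool.Agent.Helper31.EC Pool.Agent.Helper31.EC.Sp
open Pool.Agent.Helper40.EL Pool.Agent.Helper89.LX Pool.Agent.Helper84.MT Pool.Agent.Helper3.LF
open Pool.Agent.Helper7.GZ Pool.Agent.Helper36.AM Pool.Agent.Helper4.VZ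

noncomputable section

variable {S : Sp} {N : ℕ}

/-- THE ABSTRACT STEP with a loss -/
theorem topx_slk (zb za Pt P1 ζb ζa : S.L) (y : Lab S) {α β γ τ : ℝ} (hz : H (up1 y zb) = 0) (ha : za ≤ zb)
    (h8 : Pt ≤ P1) (hn : h P1 Pt ≤ γ) (h2 : α ≤ H (up1 y P1)) (h3 : H (up1 y Pt) ≤ β)
    (h5 : zb ≤ ζb ⊔ za ⊔ P1) (h6 : ζa ≤ za ⊔ P1) (h7 : h ζb (ζa ⊔ P1) ≤ τ) :
    h zb (za ⊔ Pt) ≤ τ + (γ - (α - β)) := by
  have e0 : up1 y zb = ⊥ := by
    apply le_antisymm _ bot_le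
    apply H_strict
    rw [sup_bot_eq, hz, H_bot]
  have k1 : α - β ≤ h P1 (zb ⊔ Pt) := by
    refine le_trans ?_ (h_up1_le y P1 (zb ⊔ Pt))
    rw [up1_sup, e0, bot_sup_eq]
    unfold h
    rw [sup_eq_left.mpr (up1_mono y h8)]
    linarith
  have e1 : P1 ⊔ (za ⊔ Pt) = za ⊔ P1 := by
    rw [sup_left_comm, sup_eq_left.mpr h8]
  have e2 : zb ⊔ (za ⊔ Pt) = zb ⊔ Pt := by
    rw [← sup_assoc, sup_eq_left.mpr ha]
  have k2 : h zb (za ⊔ Pt) ≤ h zb (za ⊔ P1) + (γ - (α - β)) := by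
    have i1 := I_eq zb P1 (za ⊔ Pt)
    have i2 := I_eq' zb P1 (za ⊔ Pt)
    rw [e1] at i1
    rw [e2] at i2
    have i3 := h_anti (A := P1) (le_sup_right : Pt ≤ za ⊔ Pt)
    linarith
  have k3 : h zb (za ⊔ P1) ≤ h ζb (za ⊔ P1) := by
    have i1 := h_triangle zb ζb (za ⊔ P1)
    have i2 : h zb (ζb ⊔ (za ⊔ P1)) = 0 := by
      apply h_zero
      rw [← sup_assoc]
      exact h5
    linarith
  have k4 : h ζb (za ⊔ P1) ≤ h ζb (ζa ⊔ P1) := h_anti (sup_le h6 le_sup_right)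
  linarith

variable {Z : ZU S} {Q : S.VV N} {D : ℕ} {Λ : ℝ} {R : Rows Q Z.l N D Λ Z.u} {X : Z.sp.VV N} {La : Fin N → ℝ}

variable (R La) in
/-- FLAG ROWS with the exponents `La`, last coordinate `z` -/
structure Flg (z : Fin N) : Prop where
  lst : ∀ j, j ≤ z
  dep : ∀ j : Fin N, Dep R j (j.val + 1)
  ge : ∀ j, DGe (rone R j) j (La j)
  le : DLe (rone R z) z (La z)
  h0 : ∀ j, 0 ≤ La j
  h1 : ∀ j, La j + Z.u ≤ 1

variable (Z La) in
/-- the number of digits of the other coordinates over the digits of the rows -/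
def flgN (z : Fin N) : ℝ := ∑ j : Fin N, if j.val < z.val then (1 - La j - Z.u) / Z.u else 0

/-- TOP FOR THE ZOOM, one law, one pair of levels -/
theorem top_step {z : Fin N} (hF : Flg R La z) (hX : Rows.IsX Z R X) {ρ l : ℝ} (hT : TopQ Q z ρ l) {a b : ℝ}
    (ha : 0 ≤ a) (hab : a ≤ b) (hb1 : b ≤ 1) (hl : La z + Z.u * b ≤ l) (y : Lab Z.sp)
    (hy : H (up1 y ((X.co z).dg b)) = 0) {α β : ℝ} (hα : α ≤ H (up1 y (uL Z ((oth Q z).dg 1))))
    (hβ : H (up1 y ((oth X z).dg 1)) ≤ β) :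
    h ((X.co z).dg b) ((X.co z).dg a ⊔ (oth X z).dg 1) ≤ (1 - ρ) * (b - a) + (flgN Z La z - (α - β)) := by
  have hu := Z.hu
  have ha1 : a ≤ 1 := hab.trans hb1
  have k8 : (oth X z).dg 1 ≤ uL Z ((oth Q z).dg 1) := by
    rw [oth_last X hF.lst, oth_last Q hF.lst]
    exact flag_le hX hF.dep z.val
  have kn : h (uL Z ((oth Q z).dg 1)) ((oth X z).dg 1) ≤ flgN Z La z := by
    rw [oth_last X hF.lst, oth_last Q hF.lst]
    exact flag_h hX hF.dep hF.ge hF.h0 hF.h1 z.val z.isLt.le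
  have k5 : (X.co z).dg b ≤ uL Z ((Q.co z).dg (La z + Z.u * b)) ⊔ (X.co z).dg a ⊔ uL Z ((oth Q z).dg 1) := by
    refine (row_le (rone R z) hF.le (rone_isX hX z) hb1).trans ?_
    exact sup_le (le_sup_left.trans le_sup_left) le_sup_right
  have hz0 := hF.h0 z
  have hz1 := hF.h1 z
  have k6 : uL Z ((Q.co z).dg (La z + Z.u * a)) ≤ (X.co z).dg a ⊔ uL Z ((oth Q z).dg 1) := by
    apply row_ge (hF.ge z) (rone_isX hX z) ha1
    · have := mul_nonneg hu.le ha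
      linarith
    · nlinarith
  have k7 : h (uL Z ((Q.co z).dg (La z + Z.u * b))) (uL Z ((Q.co z).dg (La z + Z.u * a)) ⊔
      uL Z ((oth Q z).dg 1)) ≤ (1 - ρ) * (b - a) := by
    rw [← uL_sup]
    refine (h_uL_le Z _ _).trans ?_
    have h1 := hT (La z + Z.u * a) (La z + Z.u * b) (by have := mul_nonneg hu.le ha; linarith)
      (by have := mul_le_mul_of_nonneg_left hab hu.le; linarith) hl
    rw [div_le_iff₀ hu]
    refine h1.trans (le_of_eq ?_)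
    ring
  exact topx_slk _ _ _ _ _ _ y hy ((X.co z).dg_mono hab) k8 kn hα hβ k5 k6 k7

/-- TOP FOR THE ZOOM, one law: the labels `y` of the levels `b` know the digits of level `b` of the coordinate `z` and
have the right numbers -/
theorem top_one {z : Fin N} (hF : Flg R La z) (hX : Rows.IsX Z R X) {ρ l l' : ℝ} (hT : TopQ Q z ρ l)
    (hl1 : l' ≤ 1) (hl : La z + Z.u * l' ≤ l)
    (hnum : ∀ b : ℝ, 0 ≤ b → b ≤ l' → ∀ ε : ℝ, 0 < ε → ∃ (y : Lab Z.sp) (α β : ℝ), H (up1 y ((X.co z).dg b)) = 0 ∧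
      α ≤ H (up1 y (uL Z ((oth Q z).dg 1))) ∧ H (up1 y ((oth X z).dg 1)) ≤ β ∧ flgN Z La z ≤ α - β + ε) :
    TopQ X z ρ l' := by
  intro a b ha hab hb
  apply le_of_forall_pos_le_add
  intro ε hε
  obtain ⟨y, α, β, h1, h2, h3, h4⟩ := hnum b (ha.trans hab) hb ε hε
  have hlb : La z + Z.u * b ≤ l := by
    have := mul_le_mul_of_nonneg_left hb Z.hu.le
    linarith
  have h5 := top_step hF hX hT ha hab (hb.trans hl1) hlb y h1 h2 h3
  linarith

end

end Pool.Agent.Helper77.TPX
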