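import Pool.Agent.Helper77.TPX.Tpz

/-! ROWS `TOPF` and `TOPZ` of `Helper94/SEL/St` (v2.7). -/

set_option autoImplicit false

namespace Pool.Agent.Helper77.TPX

open Pool.Agent.Helper94.SEL

/-- ROW `TOPF` -/
theorem topf (M : ℕ) : TOPF M := by
  intro A C v hc m g r e0 b0 S s R hb ρ c e b1 _ _ _ hb1 hx z hW hPt hzc hzu hK hF ε _ hT
  obtain ⟨W, hW⟩ := hW
  subst hzc hzu
  exact topf_lit hc hb hW hPt hb1 hx hK hF le_rfl hT

/-- ROW `TOPZ` -/
theorem topz (M : ℕ) : TOPZ M := by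
  intro A C v hc m g r e0 b0 S s R hb ρ d l La _ hl1 hLa hLl hT c _ hcb _ hd w hw hder ε hε
  obtain ⟨e1, he1, h1⟩ := topz_lit hc hb hl1 hLa hLl hT hcb hd hw hder
  refine ⟨e1, he1, fun z hW hPt hzc hzu hK hF T q B hB a b ha hab hbl => ?_⟩
  have h2 := h1 z hzc hzu hK hF hW hPt T q B hB a b ha hab hbl
  linarith

end Pool.Agent.Helper77.TPX
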