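import Pool.Agent.Helper77.TPX.Tpl

/-! TOP OF A ZOOM in the coordinates of flag rows over a literal K-label, on all events of all extensions, with an error. -/

set_option autoImplicit false

namespace Pool.Agent.Helper77.TPX

open Finset Filter Topology MvPolynomial Pool.Agent.Helper69.RK Pool.Agent.Helper31.EC Pool.Agent.Helper31.EC.Sp
open Pool.Agent.Helper40.EL Pool.Agent.Helper89.LX Pool.Agent.Helper84.MT Pool.Agent.Helper3.LF
open Pool.Agent.Helper7.GZ Pool.Agent.Helper36.AM Pool.Agent.Helper4.VZ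
open Pool.Agent.Helper7.RD (PZ RW WZ upz clz volC volCO volC_eq volCO_le roz KLb_cl)
open Pool.Agent.Helper87.NSL (cndR KnS)
open Pool.Agent.Helper29.MX (Rsl rover KLb volK volKO volKO_eq volP pfx Pt KZ AllE)
open Pool.Agent.Helper94.SEL (num tot lmd Top)
open Pool.Agent.Helper71.VIS (pt_im)
open Pool.Agent.Helper63.ZMX (zuX pjX prX rowsX pzX wzX klbX typX suppX isX_X)

noncomputable section

variable {S T : Sp} {N M : ℕ}

/-- flag rows on events -/
theorem Flg.imX {Z : ZU S} {Q : S.VV N} {D : ℕ} {Λ : ℝ} {R : Rows Q Z.l N D Λ Z.u} {La : Fin N → ℝ} {z : Fin N}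
    (hF : Flg R La z) {p : Pj T Z.sp} {A : ∀ k, (T.F k).Ω → Prop} (hA : 0 < ul (T.pr A)) :
    Flg (Z := zuX Z p A) (rowsX (p := p) (A := A) R hA) La z where
  lst := hF.lst
  dep := fun j => by
    filter_upwards [hF.dep j] with k h ω hω
    exact h ω (suppX hω)
  ge := fun j ε hε => typX (Z := Z) (p := p) (A := A) (B := fun k ω => (2 : ℝ) ^ ((La j - ε) * (S.F k).n) ≤
    |eval (Q.v k ((Z.l k).p.π ω)) (pderiv j ((rone R j).p k ω 0))|) hA (hF.ge j ε hε)
  le := fun ε hε => typX (Z := Z) (p := p) (A := A) (B := fun k ω => ∀ y : Fin N → ℝ,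
    (∀ i, |y i - Q.v k ((Z.l k).p.π ω) i| ≤ S.dl 1 k) →
      |eval y (pderiv z ((rone R z).p k ω 0))| ≤ (2 : ℝ) ^ ((La z + ε) * (S.F k).n)) hA (hF.le ε hε)
  h0 := hF.h0
  h1 := hF.h1

theorem sum_lmd {E : ℕ → ℕ} {ι : Type} {s : MSys S N E ι} {R : Rsl S} {c : ℝ} {m : ℕ} (hm : m ≤ N) :
    ∑ i : Fin m, lmd s R c (Fin.castLE hm i) = num s R hm c := by
  refine (Pool.Agent.Helper7.RD.optLam_sum (lam := lmd s R c) (R := R) (c := c) (s := s) (fun j => ?_) m hm).trans ?_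
  · unfold lmd num
    push_cast
    ring
  · rfl

variable {ι : Type} [Finite ι] {g : ℕ}

/-- **TOP OF THE ZOOM, on all events, with an error** -/
theorem top_zoom {s : MSys S (M + 1) (lin g) ι} {R : Rsl S} (hst : ∀ m, m < M + 1 → STu m) (hP : Pt s R)
    {z : RW s (M + 1)} {W : Rsl S} (hW : z.Z.l = Lab.ofZ W) (hK : KLb s R z.Z.c z.Z.l)
    (hPt : Pt z.sys (roz z.Z R)) (hF : Pool.Agent.Helper29.MX.Flg z (lmd s R z.Z.c)) {b1 : ℝ} (hb1 : b1 ≤ 1)
    (hn : ∀ b : ℝ, 0 ≤ b → b < b1 → AllE (fun _ t R' =>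
      (num s R (Nat.le_succ M) (z.Z.c + z.Z.u * b) - num s R (Nat.le_succ M) z.Z.c) / z.Z.u ≤
        num t R' (Nat.le_succ M) b) z.Z.sp z.sys (roz z.Z R))
    (hr : ∀ b : ℝ, 0 ≤ b → b < b1 → AllE (fun _ t R' => num t R' (Nat.le_succ M) (z.Z.c + z.Z.u * b) ≤
      num s R (Nat.le_succ M) (z.Z.c + z.Z.u * b)) S s R) {ρ ε l : ℝ}
    (hl : lmd s R z.Z.c (Fin.last M) + z.Z.u * b1 ≤ l) (hT : Top ρ l ε s.Q) : Top ρ b1 (ε / z.Z.u) z.X := by
  intro T p A hA a b ha hab hb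
  have h0 : ∀ j, 0 ≤ lmd s R z.Z.c j := by
    intro j
    have h1 := Pool.Agent.Helper84.SEL.num_le s R (Nat.le_succ j) (Nat.succ_le_of_lt j.2) z.Z.c
    unfold lmd
    linarith
  have hv : ((M + 1 : ℕ) : ℝ) - ∑ j, lmd s R z.Z.c j ≤ volKO s R z.Z.c := by
    have h1 := sum_lmd (s := s) (R := R) (c := z.Z.c) (le_refl (M + 1))
    have h2 : ∑ i : Fin (M + 1), lmd s R z.Z.c (Fin.castLE (le_refl (M + 1)) i) = ∑ j, lmd s R z.Z.c j := rfl
    rw [h2] at h1
    rw [h1]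
    unfold num
    rw [Pool.Agent.Helper7.RD.volP_self]
    linarith
  have hf := flg_of hF hK hv h0 (zl := Fin.last M) fun j => Fin.le_last j
  have hu := z.Z.hu
  exact top_law (s := s.im (pjX z.Z p) A (prX hA)) (R := R) (Z := zuX z.Z p A)
    (t := MSys.im (S := z.Z.sp) p A hA z.sys) hst (pt_im hP (pjX z.Z p) A hA) (klbX hW hK hA) (pzX z.pz hA) rfl
    (pt_im (S := z.Z.sp) hPt p A hA) (hf.imX hA) hb1 (fun b h1 _ => wzX (z.wz h1) hA)
    (fun b h1 h2 => by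
      have h3 := hn b h1 h2 T p A hA
      have h4 := hr b h1 h2 _ (pjX z.Z p) A hA
      have h5 := sum_lmd (s := s) (R := R) (c := z.Z.c) (Nat.le_succ M)
      have h6 : (M : ℝ) - num s R (Nat.le_succ M) z.Z.c - volP (s.im (pjX z.Z p) A (prX hA)) R (z.Z.c + z.Z.u * b)
          (Nat.le_succ M) ≤ num s R (Nat.le_succ M) (z.Z.c + z.Z.u * b) - num s R (Nat.le_succ M) z.Z.c := by
        unfold num at h4 ⊢
        linarith
      have h7 := (div_le_div_of_nonneg_right h6 hu.le).trans h3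
      rw [h5]
      have h8 : num (MSys.im (S := z.Z.sp) p A hA z.sys) (roz z.Z R) (Nat.le_succ M) b =
          M - volP (MSys.im (S := z.Z.sp) p A hA z.sys) (roz z.Z R) b (Nat.le_succ M) := rfl
      have h9 := h7.trans h8.le
      show volP (MSys.im (S := z.Z.sp) p A hA z.sys) (roz z.Z R) b (Nat.le_succ M) ≤ _
      exact le_sub_comm.1 h9)
    hl (fun a b h1 h2 h3 => hT _ (pjX z.Z p) A hA a b h1 h2 h3) a b ha hab hb

end

end Pool.Agent.Helper77.TPX
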