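import Pool.Agent.Helper77.TPX.Stp
import Pool.Agent.Helper81.CPY.Zmc

/-! THE ZOOM ON EVENTS OF EXTENSIONS: for an event of an extension of the space of the zoom the zoom of the restricted
point over the restricted label. -/

set_option autoImplicit false

namespace Pool.Agent.Helper77.TPX

open Finset Filter Topology MvPolynomial Pool.Agent.Helper69.RK Pool.Agent.Helper31.EC Pool.Agent.Helper31.EC.Sp
open Pool.Agent.Helper40.EL Pool.Agent.Helper89.LX Pool.Agent.Helper84.MT Pool.Agent.Helper3.LF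
open Pool.Agent.Helper7.GZ Pool.Agent.Helper36.AM Pool.Agent.Helper4.VZ Pool.Agent.Helper80.HCI

noncomputable section

variable {S : Sp} {N : ℕ}

theorem topQ_pull {T : Sp} (q : Pj T S) {Q : S.VV N} {z : Fin N} {ρ l : ℝ} : TopQ (q.vv Q) z ρ l ↔ TopQ Q z ρ l := by
  have e1 : oth (q.vv Q) z = q.vv (oth Q z) := VV_ext rfl
  have e2 : (q.vv Q).co z = q.vv (Q.co z) := VV_ext rfl
  unfold TopQ
  rw [e1, e2]
  simp only [← q.map_dg, ← q.map_sup, q.h_map]

section im

variable (Z : ZU S) {W : Sp} (p : Pj W Z.sp) (E : ∀ k, (W.F k).Ω → Prop)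

/-- the space of the system under the law of the event -/
abbrev spI : Sp := imS (c := Z.u) (hc := Z.hu) Z.l p E

/-- the zoom data under the law of the event -/
def zuI : ZU (spI Z p E) := ⟨exE (c := Z.u) (hc := Z.hu) Z.l p E, Z.c, Z.u, Z.h0, Z.hu, Z.h1⟩

/-- the projection of the extension to the space of the system -/
abbrev pjI : Pj (exl (c := Z.u) (hc := Z.hu) Z.l p).sp S := (exl (c := Z.u) (hc := Z.hu) Z.l p).pj

/-- the identity, from the event to the space of the restricted zoom -/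
def qI : Pj (W.rest E) (zuI Z p E).sp where
  π := fun _ ω => ω
  law := fun k => push_id ((W.rest E).F k).μ
  hZ := by
    intro k ω ω' h h'
    have h1 : (W.F k).Z ω ω' ↔ (Z.sp.F k).Z (p.π k ω) (p.π k ω') :=
      p.hZ k ω ω' ((W.F k).rest_supp (E k) ω h).1 ((W.F k).rest_supp (E k) ω' h').1
    exact h1
  hn := fun k => p.hn k

variable {Z}

/-- typical events of the zoom are typical events of the restricted zoom -/
theorem typI (hE : 0 < ul (W.pr E)) {B : ∀ k, (Z.l k).T.Ω → Prop} (hB : Typ (S := Z.sp) B) :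
    Typ (S := (zuI Z p E).l.sp) (fun k (ω : (W.F k).Ω) => B k (p.π k ω)) :=
  Sp.Typ.rest E hE (Pool.Agent.Helper81.CPY.typ_pull p hB)

theorem suppI {k : ℕ} {ω : (W.F k).Ω} (h : ((zuI Z p E).l k).T.μ ω ≠ 0) : (Z.l k).T.μ (p.π k ω) ≠ 0 :=
  p.supp k ω ((W.F k).rest_supp (E k) ω h).1

/-- a point of the zoom under the law of the event -/
def xI {m : ℕ} (X : Z.sp.VV m) : (zuI Z p E).sp.VV m where
  v := fun k (ω : (W.F k).Ω) => X.v k (p.π k ω)
  bd := by
    obtain ⟨K, hK, h⟩ := X.bd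
    have h1 : S.Sub K := Z.Sub_sp.2 hK
    refine ⟨K, (zuI Z p E).Sub_sp.1 h1, ?_⟩
    filter_upwards [h] with k h2 ω hω i
    exact h2 _ (suppI p E hω) i

theorem topQ_xI {X : Z.sp.VV N} {z : Fin N} {ρ l : ℝ} :
    TopQ (X.im p E) z ρ l ↔ TopQ (xI p E X) z ρ l := by
  rw [← topQ_pull (Sp.imq p E), ← topQ_pull (qI Z p E)]
  have e1 : (Sp.imq p E).vv (X.im p E) = (qI Z p E).vv (xI p E X) := VV_ext rfl
  rw [e1]

/-- TOP of the zoom on all events of all extensions, in terms of the restricted zooms -/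
theorem topE_iff {X : Z.sp.VV N} {z : Fin N} {ρ l : ℝ} : TopE X z ρ l ↔ ∀ (W : Sp) (p : Pj W Z.sp)
    (E : ∀ k, (W.F k).Ω → Prop), 0 < ul (W.pr E) → TopQ (xI p E X) z ρ l :=
  ⟨fun h W p E hE => (topQ_xI p E).1 (h W p E hE), fun h W p E hE => (topQ_xI p E).2 (h W p E hE)⟩

/-- the rows under the law of the event -/
def rowsI {Q : S.VV N} {M' D : ℕ} {Λ : ℝ} (R : Rows Q Z.l M' D Λ Z.u) (hE : 0 < ul (W.pr E)) :
    Rows (Q.im (pjI Z p) E) (zuI Z p E).l M' D Λ (zuI Z p E).u where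
  p := fun k (ω : (W.F k).Ω) => R.p k (p.π k ω)
  deg := fun k ω => R.deg k _
  fn := by
    filter_upwards [R.fn] with k h
    intro (ω : (W.F k).Ω) (ω' : (W.F k).Ω) a b c d
    exact h _ _ (suppI p E a) (suppI p E b) c d
  cf := by
    obtain ⟨K, hK, h⟩ := R.cf
    refine ⟨K, hK, ?_⟩
    filter_upwards [h] with k h ω hω
    exact h _ (suppI p E hω)
  bd := by
    obtain ⟨K, hK, h⟩ := R.bd
    exact ⟨K, hK, typI p E hE h⟩
  lp := fun L hL => by
    obtain ⟨K, hK, h⟩ := R.lp L hL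
    exact ⟨K, hK, typI p E hE h⟩

variable {Q : S.VV N} {D : ℕ} {Λ : ℝ}

theorem isX_I {M' : ℕ} {R : Rows Q Z.l M' D Λ Z.u} (hE : 0 < ul (W.pr E)) {X : Z.sp.VV M'} (hX : Rows.IsX Z R X) :
    Rows.IsX (zuI Z p E) (rowsI p E R hE) (xI p E X) := by
  obtain ⟨K, hK, h⟩ := hX
  exact ⟨K, hK, typI p E hE h⟩

/-- FLAG ROWS under the law of the event -/
theorem Flg.im {R : Rows Q Z.l N D Λ Z.u} {La : Fin N → ℝ} {z : Fin N} (hF : Flg R La z) (hE : 0 < ul (W.pr E)) :
    Flg (rowsI p E R hE) La z where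
  lst := hF.lst
  dep := fun j => by
    filter_upwards [hF.dep j] with k h ω hω
    exact h _ (suppI p E hω)
  ge := fun j ε hε => typI p E hE (hF.ge j ε hε)
  le := fun ε hε => typI p E hE (hF.le ε hε)
  h0 := hF.h0
  h1 := hF.h1

theorem TopE.pj {z : Fin N} {ρ l : ℝ} (h : TopE Q z ρ l) (hE : 0 < ul (W.pr E)) : TopQ (Q.im (pjI Z p) E) z ρ l :=
  h _ (pjI Z p) E hE

end im

variable {Z : ZU S} {Q : S.VV N} {D : ℕ} {Λ : ℝ} {R : Rows Q Z.l N D Λ Z.u} {X : Z.sp.VV N} {La : Fin N → ℝ}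

/-- THE NUMBERS of the restricted zooms: for every law there is a label of the level `b` which knows the digits of level
`b` of the coordinate `z` and has the right numbers of digits of the other coordinates (of the system, of the zoom) -/
def NumE (Q : S.VV N) (X : Z.sp.VV N) (La : Fin N → ℝ) (z : Fin N) (l' : ℝ) : Prop :=
  ∀ (W : Sp) (p : Pj W Z.sp) (E : ∀ k, (W.F k).Ω → Prop), 0 < ul (W.pr E) → ∀ b : ℝ, 0 ≤ b → b ≤ l' →
    ∀ ε : ℝ, 0 < ε → ∃ (y : Lab (zuI Z p E).sp) (α β : ℝ), H (up1 y (((xI p E X).co z).dg b)) = 0 ∧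
      α ≤ H (up1 y (uL (zuI Z p E) ((oth (Q.im (pjI Z p) E) z).dg 1))) ∧
      H (up1 y ((oth (xI p E X) z).dg 1)) ≤ β ∧ flgN Z La z ≤ α - β + ε

/-- **TOP IS INHERITED BY THE ZOOM** in the coordinates of flag rows -/
theorem topE_zoom {z : Fin N} (hF : Flg R La z) (hX : Rows.IsX Z R X) {ρ l l' : ℝ} (hT : TopE Q z ρ l)
    (hl1 : l' ≤ 1) (hl : La z + Z.u * l' ≤ l) (hnum : NumE Q X La z l') : TopE X z ρ l' := by
  rw [topE_iff]
  intro W p E hE
  exact top_one (hF.im p E hE) (isX_I p E hE hX) (hT.pj p E hE) hl1 hl (hnum W p E hE)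

end

end Pool.Agent.Helper77.TPX
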