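import Pool.Agent.Helper80.HCI.Ov
import Pool.Agent.Helper7.RD.Sys
import Pool.Agent.Helper77.TPX.Def

/-! Rates over a label which is refined by a partition, in the units of the zoom. -/

set_option autoImplicit false

namespace Pool.Agent.Helper77.TPX

open Finset Filter Topology Pool.Agent.Helper69.RK Pool.Agent.Helper31.EC Pool.Agent.Helper31.EC.Sp
open Pool.Agent.Helper40.EL Pool.Agent.Helper89.LX Pool.Agent.Helper84.MT

noncomputable section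

variable {S : Sp}

theorem rt_addW (l : Lab S) (W : ∀ k, Setoid (l k).T.Ω) (u : ℝ) (hu : 0 < u) (A B : ∀ k, Setoid (l k).T.Ω) (k : ℕ) :
    ((l.addW W).ovr 1 one_pos).rt A B k = u * (l.ovr u hu).rt A (fun k => B k ⊓ W k) k := by
  have h1 : (l.ovr u hu).rt A (fun k => B k ⊓ W k) k =
      (l k).T.e (A k) ((B k ⊓ W k) ⊓ ((l k).V ⊓ (l k).T.Z)) / (u * (l k).T.n) := rfl
  have h2 : ((l.addW W).ovr 1 one_pos).rt A B k =
      (l k).T.e (A k) (B k ⊓ (((l k).V ⊓ W k) ⊓ (l k).T.Z)) / (1 * (l k).T.n) := rfl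
  have h3 : (B k ⊓ W k) ⊓ ((l k).V ⊓ (l k).T.Z) = B k ⊓ (((l k).V ⊓ W k) ⊓ (l k).T.Z) := by
    rw [inf_assoc, inf_comm (l k).V (W k), inf_assoc]
  rw [h1, h2, h3, one_mul]
  have h4 : (l k).T.n ≠ 0 := (l k).T.pos.ne'
  field_simp

/-- RATES OVER A REFINED LABEL -/
theorem hr_addW (l : Lab S) (W : ∀ k, Setoid (l k).T.Ω) (u : ℝ) (hu : 0 < u) (Wc : (l.ovr u hu).Inf)
    (hW : Wc.1 = W) (X Y : S.L) :
    h (up1 (l.addW W) X) (up1 (l.addW W) Y) = u * h (l.upL u hu X) (l.upL u hu Y ⊔ Sp.cl Wc) := by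
  obtain ⟨A, rfl⟩ : ∃ A : S.Inf, X = Sp.cl A := ⟨rpo X, (cl_rpo X).symm⟩
  obtain ⟨B, rfl⟩ : ∃ B : S.Inf, Y = Sp.cl B := ⟨rpo Y, (cl_rpo Y).symm⟩
  have e1 : l.upL u hu (Sp.cl B) ⊔ Sp.cl Wc = Sp.cl (Inf.sup (l.upI u hu B) Wc) := rfl
  have e2 : l.upL u hu (Sp.cl A) = Sp.cl (l.upI u hu A) := rfl
  have e3 : up1 (l.addW W) (Sp.cl A) = Sp.cl ((l.addW W).upI 1 one_pos A) := rfl
  have e4 : up1 (l.addW W) (Sp.cl B) = Sp.cl ((l.addW W).upI 1 one_pos B) := rfl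
  rw [e1, e2, e3, e4, h_cl, h_cl]
  have key : ((l.addW W).ovr 1 one_pos).rt ((l.addW W).upI 1 one_pos A).1 ((l.addW W).upI 1 one_pos B).1 =
      fun k => u * (l.ovr u hu).rt (l.upI u hu A).1 (Inf.sup (l.upI u hu B) Wc).1 k := by
    funext k
    rw [← hW]
    exact rt_addW l Wc.1 u hu (l.upI u hu A).1 (l.upI u hu B).1 k
  rw [key, ul_const_mul]
  exact UB_rt (l.upI u hu A) _

/-- elements of the lattice in the space of the zoom -/
abbrev uL (Z : Pool.Agent.Helper7.GZ.ZU S) (x : S.L) : Z.sp.L := Z.l.upL Z.u Z.hu x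

end

end Pool.Agent.Helper77.TPX
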