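import Pool.Agent.Helper77.TPX.Le
import Pool.Agent.Helper81.CPY.Clo
import Pool.Agent.Helper63.FRT.Pol

/-! FLAG ROWS: rows of prefixes, the number of digits of the other coordinates of the point over the digits of the rows. -/

set_option autoImplicit false

namespace Pool.Agent.Helper77.TPX

open Finset Filter Topology MvPolynomial Pool.Agent.Helper69.RK Pool.Agent.Helper31.EC Pool.Agent.Helper31.EC.Sp
open Pool.Agent.Helper40.EL Pool.Agent.Helper89.LX Pool.Agent.Helper84.MT Pool.Agent.Helper3.LF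
open Pool.Agent.Helper7.GZ Pool.Agent.Helper36.AM Pool.Agent.Helper4.VZ

noncomputable section

variable {S : Sp} {N : ℕ}

/-- rates in the space over a label -/
theorem h_uL (Z : ZU S) (x y : S.L) : h (uL Z x) (uL Z y) = h (up1 Z.l x) (up1 Z.l y) / Z.u := by
  have h1 := Z.l.hr_upL Z.u Z.hu x y
  have h2 := Z.l.hr_upL 1 one_pos x y
  rw [div_one] at h2
  rw [← h2] at h1
  exact h1

theorem h_uL_le (Z : ZU S) (x y : S.L) : h (uL Z x) (uL Z y) ≤ h x y / Z.u := by
  rw [h_uL]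
  exact div_le_div_of_nonneg_right (h_up1_le Z.l x y) Z.hu.le

theorem uL_mono (Z : ZU S) {x y : S.L} (hxy : x ≤ y) : uL Z x ≤ uL Z y := Z.l.upL_mono Z.u Z.hu hxy

theorem uL_sup (Z : ZU S) (x y : S.L) : uL Z (x ⊔ y) = uL Z x ⊔ uL Z y := Z.l.upL_sup Z.u Z.hu x y

/-- the first `m` coordinates of the point -/
def pre (Q : S.VV N) (m : ℕ) : S.VV N where
  v := fun k ω i => if i.val < m then Q.v k ω i else 0
  bd := by
    obtain ⟨L, hL, hb⟩ := Q.bd
    refine ⟨L, hL, ?_⟩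
    filter_upwards [hb, hL.1] with k hk hL0 ω hω i
    split_ifs
    · exact hk ω hω i
    · rw [abs_zero]
      exact hL0

theorem VV_ext {m : ℕ} {y y' : S.VV m} (h : y.v = y'.v) : y = y' := Pool.Agent.Helper81.CPY.VV_ext h

theorem oth_last (Q : S.VV N) {z : Fin N} (hz : ∀ j : Fin N, j ≤ z) : oth Q z = pre Q z.val := by
  apply VV_ext
  funext k ω i
  show (if i = z then 0 else Q.v k ω i) = if i.val < z.val then Q.v k ω i else 0
  by_cases h : i = z
  · rw [if_pos h, if_neg (by rw [h]; exact lt_irrefl _)]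
  · have h1 : i.val < z.val := lt_of_le_of_ne (hz i) fun e => h (Fin.ext e)
    rw [if_neg h, if_pos h1]

theorem oth_pre (Q : S.VV N) (j : Fin N) : oth (pre Q (j.val + 1)) j = pre Q j.val := by
  apply VV_ext
  funext k ω i
  show (if i = j then 0 else if i.val < j.val + 1 then Q.v k ω i else 0) = if i.val < j.val then Q.v k ω i else 0
  by_cases h : i = j
  · rw [if_pos h, if_neg (by rw [h]; exact lt_irrefl _)]
  · rw [if_neg h]
    by_cases h1 : i.val < j.val
    · rw [if_pos h1, if_pos (by omega)]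
    · rw [if_neg h1, if_neg]
      intro h2
      exact h (Fin.ext (by omega))

theorem pre_co (Q : S.VV N) (j : Fin N) (r : ℝ) : ((pre Q (j.val + 1)).co j).dg r = (Q.co j).dg r := by
  congr 1
  apply VV_ext
  funext k ω i
  show (if j.val < j.val + 1 then Q.v k ω j else 0) = Q.v k ω j
  rw [if_pos (Nat.lt_succ_self _)]

theorem pre_mono (Q : S.VV N) {m m' : ℕ} (h : m ≤ m') (r : ℝ) : (pre Q m).dg r ≤ (pre Q m').dg r := by
  apply VV.dg_le_dg _ _ _ _ (fun _ _ => True) Typ_true (fun _ => 1) (S.Sub_const zero_le_one)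
  refine Eventually.of_forall fun k ω ω' _ _ _ _ _ g i => ?_
  rw [one_mul]
  have h1 := g i
  show |(if i.val < m then Q.v k ω i else 0) - (if i.val < m then Q.v k ω' i else 0)| ≤ _
  have h2 : |(if i.val < m' then Q.v k ω i else 0) - (if i.val < m' then Q.v k ω' i else 0)| ≤ S.dl r k := h1
  by_cases h3 : i.val < m
  · rw [if_pos h3, if_pos h3]
    rw [if_pos (by omega), if_pos (by omega)] at h2
    exact h2
  · rw [if_neg h3, if_neg h3, sub_zero, abs_zero]
    exact (S.dl_pos r k).le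

theorem pre_succ (Q : S.VV N) (j : Fin N) (r : ℝ) :
    (pre Q (j.val + 1)).dg r ≤ (pre Q j.val).dg r ⊔ (Q.co j).dg r := by
  apply VV.dg_le_dg2 _ _ _ _ _ _ (fun _ _ => True) Typ_true (fun _ => 1) (S.Sub_const zero_le_one)
  refine Eventually.of_forall fun k ω ω' _ _ _ _ _ g g' i => ?_
  rw [one_mul]
  have h1 : |(if i.val < j.val then Q.v k ω i else 0) - (if i.val < j.val then Q.v k ω' i else 0)| ≤ S.dl r k := g i
  have h2 : |Q.v k ω j - Q.v k ω' j| ≤ S.dl r k := g' 0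
  show |(if i.val < j.val + 1 then Q.v k ω i else 0) - (if i.val < j.val + 1 then Q.v k ω' i else 0)| ≤ _
  by_cases h3 : i.val < j.val
  · rw [if_pos h3, if_pos h3] at h1
    rw [if_pos (by omega), if_pos (by omega)]
    exact h1
  · by_cases h4 : i = j
    · rw [h4, if_pos (Nat.lt_succ_self _), if_pos (Nat.lt_succ_self _)]
      exact h2
    · have h5 : ¬ i.val < j.val + 1 := fun h => h4 (Fin.ext (by omega))
      rw [if_neg h5, if_neg h5, sub_zero, abs_zero]
      exact (S.dl_pos r k).le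

theorem co_le_pre (Q : S.VV N) (j : Fin N) {m : ℕ} (h : j.val < m) (r : ℝ) : (Q.co j).dg r ≤ (pre Q m).dg r := by
  rw [← pre_co]
  refine ((pre Q (j.val + 1)).co_dg_le j r).trans (pre_mono Q (by omega) r)

theorem pre_zero (Q : S.VV N) (r : ℝ) : (pre Q 0).dg r = ⊥ := by
  apply le_antisymm _ bot_le
  rw [← cl_bot]
  apply (pre Q 0).dg_le_cl r Inf.bot (fun _ _ => True) Typ_true (fun _ => 1) (S.Sub_const zero_le_one)
  refine Eventually.of_forall fun k ω ω' _ _ _ _ _ _ i => ?_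
  show |(if i.val < 0 then Q.v k ω i else 0) - (if i.val < 0 then Q.v k ω' i else 0)| ≤ _
  rw [if_neg (Nat.not_lt_zero _), if_neg (Nat.not_lt_zero _), sub_zero, abs_zero, one_mul]
  exact (S.dl_pos r k).le

section rows

variable {l : Lab S} {Q : S.VV N} {M' D : ℕ} {Λ u : ℝ}

/-- one row -/
def rone (R : Rows Q l M' D Λ u) (j : Fin M') : Rows Q l 1 D Λ u where
  p := fun k ω _ => R.p k ω j
  deg := fun k ω _ => R.deg k ω j
  fn := by
    filter_upwards [R.fn] with k h1 ω ω' a b c d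
    rw [h1 ω ω' a b c d]
  cf := by
    obtain ⟨K, hK, h⟩ := R.cf
    refine ⟨K, hK, ?_⟩
    filter_upwards [h] with k h1 ω hω _ a
    exact h1 ω hω j a
  bd := by
    obtain ⟨K, hK, h⟩ := R.bd
    exact ⟨K, hK, Typ.mono (S := l.sp) h (Eventually.of_forall fun k ω _ h1 _ => h1 j)⟩
  lp := fun L hL => by
    obtain ⟨K, hK, h⟩ := R.lp L hL
    exact ⟨K, hK, Typ.mono (S := l.sp) h (Eventually.of_forall fun k ω _ h1 y hy _ => h1 y hy j)⟩

/-- the row `j` depends on the first `m` coordinates only -/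
def Dep (R : Rows Q l M' D Λ u) (j : Fin M') (m : ℕ) : Prop :=
  ∀ᶠ k in UF, ∀ ω, (l k).T.μ ω ≠ 0 → ∀ i ∈ (R.p k ω j).vars, i.val < m

/-- one row as a row of the prefix -/
def rpre (R : Rows Q l M' D Λ u) (j : Fin M') (m : ℕ) (hd : Dep R j m) : Rows (pre Q m) l 1 D Λ u where
  p := fun k ω _ => R.p k ω j
  deg := fun k ω _ => R.deg k ω j
  fn := (rone R j).fn
  cf := (rone R j).cf
  bd := by
    obtain ⟨K, hK, h⟩ := R.bd
    refine ⟨K, hK, Typ.mono (S := l.sp) h ?_⟩
    filter_upwards [hd] with k h1 ω hω h2 _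
    have h3 : eval ((pre Q m).v k ((l k).p.π ω)) (R.p k ω j) = eval (Q.v k ((l k).p.π ω)) (R.p k ω j) :=
      eval_congr _ fun i hi => if_pos (h1 ω hω i hi)
    rw [h3]
    exact h2 j
  lp := fun L hL => by
    obtain ⟨K, hK, h⟩ := R.lp L hL
    refine ⟨K, hK, Typ.mono (S := l.sp) h ?_⟩
    filter_upwards [hd, hL.1] with k h1 hL0 ω hω h2 y hy _
    have h3 : eval ((pre Q m).v k ((l k).p.π ω)) (R.p k ω j) = eval (Q.v k ((l k).p.π ω)) (R.p k ω j) :=
      eval_congr _ fun i hi => if_pos (h1 ω hω i hi)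
    have h4 : eval y (R.p k ω j) = eval (fun i => if i.val < m then y i else Q.v k ((l k).p.π ω) i) (R.p k ω j) :=
      eval_congr _ fun i hi => (if_pos (h1 ω hω i hi)).symm
    rw [h3, h4]
    apply h2
    intro i
    show |(if i.val < m then y i else Q.v k ((l k).p.π ω) i) - Q.v k ((l k).p.π ω) i| ≤ _
    by_cases h5 : i.val < m
    · rw [if_pos h5]
      have h6 : |y i - (if i.val < m then Q.v k ((l k).p.π ω) i else 0)| ≤ L k * S.dl 1 k := hy i
      rw [if_pos h5] at h6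
      exact h6
    · rw [if_neg h5, sub_self, abs_zero]
      exact mul_nonneg hL0 (S.dl_pos 1 k).le

end rows

section zoom

variable {Z : ZU S} {Q : S.VV N} {M' D : ℕ} {Λ : ℝ} {R : Rows Q Z.l M' D Λ Z.u} {X : Z.sp.VV M'}

theorem rone_isX (hX : Rows.IsX Z R X) (j : Fin M') : Rows.IsX Z (rone R j) (X.co j) := by
  obtain ⟨K, hK, h⟩ := hX
  exact ⟨K, hK, Typ.mono (S := Z.sp) h (Eventually.of_forall fun k ω _ h1 _ => h1 j)⟩

theorem rpre_isX (hX : Rows.IsX Z R X) (j : Fin M') (m : ℕ) (hd : Dep R j m) :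
    Rows.IsX Z (rpre R j m hd) (X.co j) := by
  obtain ⟨K, hK, h⟩ := hX
  refine ⟨K, hK, Typ.mono (S := Z.sp) h ?_⟩
  filter_upwards [hd] with k h1
  intro (ω : (Z.l k).T.Ω) hω h2 _
  have h3 : eval ((pre Q m).v k ((Z.l k).p.π ω)) (R.p k ω j) = eval (Q.v k ((Z.l k).p.π ω)) (R.p k ω j) :=
    eval_congr _ fun i hi => if_pos (h1 ω hω i hi)
  show |X.v k ω j - eval ((pre Q m).v k ((Z.l k).p.π ω)) (R.p k ω j)| ≤ _
  rw [h3]
  exact h2 j

/-- THE LOWER BOUND for one row of a flag -/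
theorem flag_ge (hX : Rows.IsX Z R X) (j : Fin M') (i : Fin N) (hd : Dep R j (i.val + 1)) {v : ℝ}
    (hv : DGe (rone R j) i v) {a : ℝ} (ha1 : a ≤ 1) (h0 : 0 ≤ v + Z.u * a) (h1 : v + Z.u * a ≤ 1) :
    uL Z ((Q.co i).dg (v + Z.u * a)) ≤ (X.co j).dg a ⊔ uL Z ((pre Q i.val).dg 1) := by
  have h2 : DGe (rpre R j (i.val + 1) hd) i v := by
    intro ε hε
    refine Typ.mono (S := Z.l.sp) (hv ε hε) ?_
    filter_upwards [hd] with k h3 ω hω h4
    have h5 : eval ((pre Q (i.val + 1)).v k ((Z.l k).p.π ω)) (pderiv i (R.p k ω j)) =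
        eval (Q.v k ((Z.l k).p.π ω)) (pderiv i (R.p k ω j)) :=
      eval_congr _ fun b hb => if_pos (h3 ω hω b (Pool.Agent.Helper63.FRT.vars_pderiv_le i _ b hb))
    show (2 : ℝ) ^ ((v - ε) * (S.F k).n) ≤ |eval ((pre Q (i.val + 1)).v k ((Z.l k).p.π ω)) (pderiv i (R.p k ω j))|
    rw [h5]
    exact h4
  have h3 := row_ge h2 (rpre_isX hX j (i.val + 1) hd) ha1 h0 h1
  rw [pre_co, oth_pre] at h3
  exact h3

end zoom

section flag

variable {Z : ZU S} {Q : S.VV N} {D : ℕ} {Λ : ℝ} {R : Rows Q Z.l N D Λ Z.u} {X : Z.sp.VV N} {La : Fin N → ℝ}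

/-- THE DIGITS of the first coordinates over the digits of the rows -/
theorem flag_h (hX : Rows.IsX Z R X) (hd : ∀ j, Dep R j (j.val + 1)) (hv : ∀ j, DGe (rone R j) j (La j))
    (h0 : ∀ j, 0 ≤ La j) (h1 : ∀ j, La j + Z.u ≤ 1) (m : ℕ) (hm : m ≤ N) :
    h (uL Z ((pre Q m).dg 1)) ((pre X m).dg 1) ≤
      ∑ j : Fin N, if j.val < m then (1 - La j - Z.u) / Z.u else 0 := by
  classical
  induction m with
  | zero =>
    have e1 : uL Z ((pre Q 0).dg 1) = ⊥ := by
      rw [pre_zero]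
      exact Z.l.upL_bot Z.u Z.hu
    rw [e1, h_zero bot_le]
    exact le_of_eq (by simp)
  | succ m ih =>
    have ih := ih (by omega)
    obtain ⟨j, hj⟩ : ∃ j : Fin N, j.val = m := ⟨⟨m, by omega⟩, rfl⟩
    subst hj
    have e1 : (∑ i : Fin N, if i.val < j.val + 1 then (1 - La i - Z.u) / Z.u else 0) =
        (∑ i : Fin N, if i.val < j.val then (1 - La i - Z.u) / Z.u else 0) + (1 - La j - Z.u) / Z.u := by
      have e2 : ∀ i : Fin N, (if i.val < j.val + 1 then (1 - La i - Z.u) / Z.u else 0) =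
          (if i.val < j.val then (1 - La i - Z.u) / Z.u else 0) + if i = j then (1 - La i - Z.u) / Z.u else 0 := by
        intro i
        by_cases h2 : i.val < j.val
        · have h3 : i ≠ j := fun e => by rw [e] at h2; exact lt_irrefl _ h2
          rw [if_pos h2, if_pos (by omega), if_neg h3, add_zero]
        · by_cases h3 : i = j
          · rw [if_neg h2, if_pos h3, h3, if_pos (Nat.lt_succ_self _), zero_add]
          · have h4 : ¬ i.val < j.val + 1 := fun e => h3 (Fin.ext (by omega))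
            rw [if_neg h2, if_neg h3, if_neg h4, add_zero]
      rw [Finset.sum_congr rfl fun i _ => e2 i, Finset.sum_add_distrib]
      congr 1
      rw [Finset.sum_ite_eq' Finset.univ j (fun i => (1 - La i - Z.u) / Z.u), if_pos (Finset.mem_univ j)]
    rw [e1]
    have k1 : uL Z ((pre Q (j.val + 1)).dg 1) ≤ uL Z ((pre Q j.val).dg 1) ⊔ uL Z ((Q.co j).dg 1) := by
      rw [← uL_sup]
      exact uL_mono Z (pre_succ Q j 1)
    have k2 : (pre X j.val).dg 1 ≤ (pre X (j.val + 1)).dg 1 := pre_mono X (Nat.le_succ _) 1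
    have k3 : (X.co j).dg 1 ≤ (pre X (j.val + 1)).dg 1 := co_le_pre X j (Nat.lt_succ_self _) 1
    have hLu : 0 ≤ La j + Z.u * 1 := by
      have := h0 j
      have := Z.hu
      linarith
    have k4 := flag_ge hX j j (hd j) (hv j) le_rfl hLu (by rw [mul_one]; exact h1 j)
    have k5 : h (uL Z ((Q.co j).dg 1)) (uL Z ((Q.co j).dg (La j + Z.u * 1))) ≤ (1 - La j - Z.u) / Z.u := by
      refine (h_uL_le Z _ _).trans (div_le_div_of_nonneg_right ?_ Z.hu.le)
      refine ((Q.co j).h_dg_dg (by rw [mul_one]; exact h1 j)).trans (le_of_eq ?_)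
      rw [Nat.cast_one, one_mul, mul_one]
      ring
    have k6 := h_mono (B := (pre X (j.val + 1)).dg 1) k1
    rw [h_chain] at k6
    have k7 : h (uL Z ((pre Q j.val).dg 1)) ((pre X (j.val + 1)).dg 1) ≤
        h (uL Z ((pre Q j.val).dg 1)) ((pre X j.val).dg 1) := h_anti k2
    have k8 : h (uL Z ((Q.co j).dg 1)) (uL Z ((pre Q j.val).dg 1) ⊔ (pre X (j.val + 1)).dg 1) ≤
        h (uL Z ((Q.co j).dg 1)) (uL Z ((Q.co j).dg (La j + Z.u * 1))) := by
      apply h_anti
      refine k4.trans (sup_le (k3.trans le_sup_right) le_sup_left)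
    linarith

/-- the digits of the first rows are known to the digits of the first coordinates -/
theorem flag_le (hX : Rows.IsX Z R X) (hd : ∀ j, Dep R j (j.val + 1)) (m : ℕ) :
    (pre X m).dg 1 ≤ uL Z ((pre Q m).dg 1) := by
  obtain ⟨KX, hKX, hX⟩ := hX
  obtain ⟨KL, hKL, hlp⟩ := R.lp (fun _ => 1) (S.Sub_const zero_le_one)
  have e1 : uL Z ((pre Q m).dg 1) = Sp.cl (S := Z.sp) (Z.l.upI Z.u Z.hu ((pre Q m).bdd 1).toInf) := by
    unfold VV.dg
    rw [io_eq ((pre Q m).bdd 1)]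
    rfl
  rw [e1]
  have hE : Typ (S := Z.sp) (fun k (ω : (Z.l k).T.Ω) => (∀ j, |X.v k ω j - Rows.val Z R k ω j| ≤ KX k * S.dl Z.u k) ∧
      ∀ y : Fin N → ℝ, (∀ i, |y i - Q.v k ((Z.l k).p.π ω) i| ≤ 1 * S.dl 1 k) → ∀ j,
      |MvPolynomial.eval y (R.p k ω j) - MvPolynomial.eval (Q.v k ((Z.l k).p.π ω)) (R.p k ω j)| ≤
        KL k * S.dl Z.u k) := Typ.and (S := Z.sp) hX hlp
  apply VV.dg_le_cl (S := Z.sp) (pre X m) 1 _ _ hE (fun k => 2 * KX k + KL k)
    (Z.Sub_sp.1 (((S.Sub_const (by norm_num)).mul hKX).add hKL))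
  filter_upwards [R.fn, eventually_all.2 hd, hKX.1, hKL.1] with k hfn hdk hX0 hL0
  intro (ω : (Z.l k).T.Ω) (ω' : (Z.l k).T.Ω) a1 a2 h1 h2 g r i
  obtain ⟨g1, g2, -⟩ := Z.hZ k ω ω' a1 a2 g
  have r' : (pre Q m).cellv 1 k ((Z.l k).p.π ω) = (pre Q m).cellv 1 k ((Z.l k).p.π ω') := r
  have hp : R.p k ω = R.p k ω' := hfn ω ω' a1 a2 g2 g1
  rw [Z.sp_dl1]
  show |(if i.val < m then X.v k ω i else 0) - (if i.val < m then X.v k ω' i else 0)| ≤ _
  by_cases h3 : i.val < m
  · rw [if_pos h3, if_pos h3]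
    obtain ⟨h1a, h1b⟩ := h1
    obtain ⟨h2a, -⟩ := h2
    have b1 : |X.v k ω i - eval (Q.v k ((Z.l k).p.π ω)) (R.p k ω i)| ≤ KX k * S.dl Z.u k := h1a i
    have b2 : |X.v k ω' i - eval (Q.v k ((Z.l k).p.π ω')) (R.p k ω' i)| ≤ KX k * S.dl Z.u k := h2a i
    rw [← hp] at b2
    have b3 : eval (Q.v k ((Z.l k).p.π ω')) (R.p k ω i) =
        eval (fun b => if b.val < m then Q.v k ((Z.l k).p.π ω') b else Q.v k ((Z.l k).p.π ω) b) (R.p k ω i) :=
      eval_congr _ fun b hb => (if_pos (show b.val < m by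
        have := hdk i ω a1 b hb
        omega)).symm
    have b4 := h1b (fun b => if b.val < m then Q.v k ((Z.l k).p.π ω') b else Q.v k ((Z.l k).p.π ω) b) (fun b => by
      rw [one_mul]
      by_cases h5 : b.val < m
      · have h6 := (pre Q m).cellv_close 1 k _ _ r' b
        have h7 : |(if b.val < m then Q.v k ((Z.l k).p.π ω) b else 0) -
          (if b.val < m then Q.v k ((Z.l k).p.π ω') b else 0)| ≤ S.dl 1 k := h6
        rw [if_pos h5, if_pos h5, abs_sub_comm] at h7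
        rw [if_pos h5]
        exact h7
      · rw [if_neg h5, sub_self, abs_zero]
        exact (S.dl_pos 1 k).le) i
    rw [← b3] at b4
    set V1 := eval (Q.v k ((Z.l k).p.π ω)) (R.p k ω i)
    set V2 := eval (Q.v k ((Z.l k).p.π ω')) (R.p k ω i)
    have c1 := abs_le.1 b1
    have c2 := abs_le.1 b2
    have c3 := abs_le.1 b4
    rw [abs_le]
    constructor <;> linarith
  · rw [if_neg h3, if_neg h3, sub_zero, abs_zero]
    have := S.dl_pos Z.u k
    positivity

end flag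

end

end Pool.Agent.Helper77.TPX
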