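import Pool.Agent.Helper77.TPX.Prd
import Pool.Agent.Helper77.TPX.Stp
import Pool.Agent.Helper4.FFR.Mean
import Pool.Agent.Helper7.RD.Kv
import Pool.Agent.Helper26.MT.Zo

/-! UPPER BOUNDS OF THE EXPONENTS OF OPTIMAL FLAG ROWS near the point, from the volumes of the window of the label. -/

set_option autoImplicit false

namespace Pool.Agent.Helper77.TPX

open Finset Filter Topology MvPolynomial Matrix Pool.Agent.Helper69.RK Pool.Agent.Helper31.EC
open Pool.Agent.Helper31.EC.Sp Pool.Agent.Helper40.EL Pool.Agent.Helper89.LX Pool.Agent.Helper84.MT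
open Pool.Agent.Helper3.LF Pool.Agent.Helper95.LF Pool.Agent.Helper7.GZ Pool.Agent.Helper36.AM
open Pool.Agent.Helper14.MC (gx vx vol_eq vx_UB)
open Pool.Agent.Helper7.RD (volC volC_le_of)

noncomputable section

/-- the pointwise bound -/
theorem dle_real (N D : ℕ) : ∃ C : ℝ, 1 ≤ C ∧ ∀ p : Fin N → MvPolynomial (Fin N) ℝ, (∀ i, (p i).totalDegree ≤ D) →
    (∀ j, ∀ i ∈ (p j).vars, i.val < j.val + 1) → ∀ (q : Fin N → ℝ) (r G : ℝ) (a : Fin N → ℝ), 0 < r → 0 ≤ G →
      GQ r (rwm (N * D + D) p) q ≤ G ^ 2 → (∀ j, 0 < a j) → (∀ j, a j ≤ |eval q (pderiv j (p j))|) →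
        ∀ (z : Fin N) (y : Fin N → ℝ), (∀ i, |y i - q i| ≤ r) →
          |eval y (pderiv z (p z))| ≤ C * G / ∏ j ∈ Finset.univ.erase z, a j := by
  classical
  obtain ⟨C, hC1, hC⟩ := prod_seg N (N * D + D)
  have hCm : 1 ≤ Cm N (N * D + D) := by
    unfold Cm
    exact one_le_pow₀ (Cu_one _)
  refine ⟨C * Cm N (N * D + D), one_le_mul_of_one_le_of_one_le hC1 hCm, ?_⟩
  intro p hp hd q r G a hr hG hGQ ha hq z y hy
  have hpd : ∀ j, (pderiv j (p j)).totalDegree ≤ D := fun j => (totalDegree_pderiv_le _ _).trans (hp j)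
  have hdd : D ≤ N * D + D := Nat.le_add_left _ _
  have hprod : ∀ s : Finset (Fin N), (∏ j ∈ s, pderiv j (p j)).totalDegree ≤ N * D + D := by
    intro s
    refine (totalDegree_finsetProd _ _).trans ?_
    refine (Finset.sum_le_card_nsmul s _ D fun j _ => hpd j).trans ?_
    rw [smul_eq_mul]
    have h1 : s.card ≤ N := (Finset.card_le_univ s).trans (by rw [Fintype.card_fin])
    have h2 := Nat.mul_le_mul_right D h1
    omega
  set J : MvPolynomial (Fin N) ℝ := ∏ j, pderiv j (p j) with hJ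
  have hJe : ∀ x : Fin N → ℝ, eval x J = (jac p x).det := by
    intro x
    rw [jac_flag p hd, hJ, map_prod]
  -- nodes
  have h1 : ∀ j : Fin N → Fin (N * D + D + 1), |eval (nodp (N * D + D) q r j) J| ≤ G := by
    intro j
    rw [hJe]
    have h2 := (rwm_det p (fun i => (hp i).trans hdd) r q j).trans hGQ
    exact abs_le_of_sq_le_sq h2 hG
  have h2 : ∀ x : Fin N → ℝ, (∀ i, |x i - q i| ≤ r) → |eval x J| ≤ Cm N (N * D + D) * G := by
    intro x hx
    have h3 := cell_val (N * D + D) J (hprod _) q r 1 G hr le_rfl h1 x (by simpa using hx)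
    rwa [one_pow, mul_one] at h3
  set F : MvPolynomial (Fin N) ℝ := ∏ j ∈ Finset.univ.erase z, pderiv j (p j) with hF
  have hJF : J = F * pderiv z (p z) := by
    rw [hJ, hF, ← Finset.prod_erase_mul _ _ (Finset.mem_univ z)]
  have hf : 0 < ∏ j ∈ Finset.univ.erase z, a j := Finset.prod_pos fun j _ => ha j
  have hfF : ∏ j ∈ Finset.univ.erase z, a j ≤ |eval q F| := by
    rw [hF, map_prod, Finset.abs_prod]
    exact Finset.prod_le_prod (fun j _ => (ha j).le) fun j _ => hq j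
  have h3 := hC F (pderiv z (p z)) (hprod _) ((hpd z).trans hdd) q y (Cm N (N * D + D) * G) _ hf hfF (by
    intro u hu0 hu1
    have h4 := h2 (fun j => q j + u * (y j - q j)) (fun i => by
      have e : q i + u * (y i - q i) - q i = u * (y i - q i) := by ring
      rw [e, abs_mul, abs_of_nonneg hu0]
      have h5 := hy i
      have h6 := abs_nonneg (y i - q i)
      nlinarith)
    rw [hJF, map_mul, abs_mul] at h4
    exact h4)
  rw [mul_assoc]
  exact h3

section dle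

variable {S : Sp} {N : ℕ} {Z : ZU S} {Q : S.VV N} {D : ℕ} {Λ : ℝ} (R : Rows Q Z.l N D Λ Z.u)

theorem rows_ms : ∀ᶠ k in UF, Ms Z.l R.p k := by
  filter_upwards [R.fn] with k h ω ω' a b c d
  exact h ω ω' a b d c

theorem rows_bd (DD : ℕ) : ∃ K : ℕ → ℝ, S.Sub K ∧ Typ (S := Z.l.sp) (fun k (ω : (Z.l k).T.Ω) =>
    RwB Z.l DD Q R.p K k ω) := by
  obtain ⟨K1, hK1, h1⟩ := R.bd
  obtain ⟨K2, hK2, h2⟩ := R.lp (fun _ => 1) (S.Sub_const zero_le_one)
  refine ⟨fun k => K1 k + K2 k, hK1.add hK2, ?_⟩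
  refine Typ.mono (S := Z.l.sp) (Typ.and (S := Z.l.sp) h1 h2) ?_
  filter_upwards [hK2.1] with k hk2
  intro (ω : (Z.l k).T.Ω) _ h i j
  have h3 := h.2 (nodp DD (Q.v k ((Z.l k).p.π ω)) (S.dl 1 k) j) (fun i => by
    unfold nodp
    rw [add_sub_cancel_left, abs_mul, abs_of_pos (S.dl_pos 1 k), abs_of_nonneg (nod_nonneg _ _), one_mul]
    exact mul_le_of_le_one_right (S.dl_pos 1 k).le (nod_le DD _ (Nat.lt_succ_iff.1 (j i).2))) i
  have h4 := h.1 i
  have h5 : S.dl Z.u k ≤ 1 := by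
    unfold Sp.dl
    apply Real.rpow_le_one_of_one_le_of_nonpos (by norm_num)
    have := (S.F k).pos
    have := Z.hu
    have : 0 < Z.u * (S.F k).n := by positivity
    linarith
  have h6 : K2 k * S.dl Z.u k ≤ K2 k := mul_le_of_le_one_right hk2 h5
  have h7 := abs_sub_abs_le_abs_sub (eval (nodp DD (Q.v k ((Z.l k).p.π ω)) (S.dl 1 k) j) (R.p k ω i))
    (eval (Q.v k ((Z.l k).p.π ω)) (R.p k ω i))
  linarith

/-- THE UPPER BOUND of the exponents of optimal flag rows near the point -/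
theorem dle_of_vol {κ : Type} [Finite κ] {A : κ → Part S} {C : LC S} (hl : Z.l.DMf A) (hC : C.ev Z.l)
    (hd : ∀ j : Fin N, Dep R j (j.val + 1)) (La : Fin N → ℝ) (hge : ∀ j, DGe (rone R j) j (La j))
    (hv : ∀ DD : ℕ, (N : ℝ) - ∑ j, La j ≤ volC C A Q DD) (z : Fin N) : DLe (rone R z) z (La z) := by
  classical
  intro ε hε
  obtain ⟨C0, hC01, hC0⟩ := dle_real N D
  have hdeg : ∀ k (ω : (Z.l k).T.Ω) i, (R.p k ω i).totalDegree ≤ N * D + D :=
    fun k ω i => (R.deg k ω i).trans (Nat.le_add_left _ _)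
  obtain ⟨K, hK, hT⟩ := rows_bd R (N * D + D)
  obtain ⟨K', hK', hg⟩ := rwx_good Z.l Q R.p hdeg (rows_ms R) hK
  have hx := rwx_Adf hl Q R.p hdeg (rows_ms R) hK hT
  have hv1 := (hv (N * D + D)).trans (volC_le_of (C := C) (A := A) ⟨hx, hC⟩)
  rw [vol_eq] at hv1
  obtain ⟨Cb, hCb0, hbd⟩ := Pool.Agent.Helper84.MT.gx_bd hx
  have hN : (0 : ℝ) < (N : ℝ) + 1 := by positivity
  -- the typical lower bounds
  have hgeA : ∀ e : ℝ, 0 < e → Typ (S := Z.l.sp) (fun k (ω : (Z.l k).T.Ω) => ∀ j,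
      (2 : ℝ) ^ ((La j - e) * (S.F k).n) ≤ |eval (Q.v k ((Z.l k).p.π ω)) (pderiv j (R.p k ω j))|) := fun e he =>
    Typ_all (S := Z.l.sp) (fun j k (ω : (Z.l k).T.Ω) =>
      (2 : ℝ) ^ ((La j - e) * (S.F k).n) ≤ |eval (Q.v k ((Z.l k).p.π ω)) (pderiv j (R.p k ω j))|) fun j => hge j e he
  have key : ∀ e : ℝ, 0 < e → Typ (S := Z.l.sp) (fun k (ω : (Z.l k).T.Ω) => |∑ j, La j -
      gx Q k ((Z.l k).p.π ω) ((rwx Z.l (N * D + D) (gaq Q (N * D + D)).cp R.p k).g ω)| ≤ e) := by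
    apply Pool.Agent.Helper4.FFR.typ_abs Z.l.sp (fun _ _ => ∑ j, La j) (fun k (ω : (Z.l k).T.Ω) =>
      gx Q k ((Z.l k).p.π ω) ((rwx Z.l (N * D + D) (gaq Q (N * D + D)).cp R.p k).g ω)) (Cb + |∑ j, La j|)
    · exact Eventually.of_forall fun k ω _ => by linarith
    · filter_upwards [hbd] with k hk ω hω
      have h1 := hk ω hω
      have h2 := abs_nonneg (∑ j, La j)
      have h3 : gx Q k ((Z.l k).p.π ω) ((rwx Z.l (N * D + D) (gaq Q (N * D + D)).cp R.p k).g ω) ≤ Cb := h1.2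
      have h4 : 0 ≤ gx Q k ((Z.l k).p.π ω) ((rwx Z.l (N * D + D) (gaq Q (N * D + D)).cp R.p k).g ω) := h1.1
      rw [abs_of_nonneg h4]
      linarith
    · intro e he
      refine Typ.mono (S := Z.l.sp) (Typ.and (S := Z.l.sp) hT (hgeA (e / (N + 1)) (div_pos he hN))) ?_
      filter_upwards [hg, eventually_all.2 hd] with k hk hdk
      intro (ω : (Z.l k).T.Ω) hω h
      have hn := (S.F k).pos
      have h1 := ((hk ω hω).2 h.1).1
      show ∑ j, La j ≤ Real.logb 2 (GQ (S.dl 1 k)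
        ((rwx Z.l (N * D + D) (gaq Q (N * D + D)).cp R.p k).g ω) (Q.v k ((Z.l k).p.π ω))) / (2 * (S.F k).n) + e
      rw [h1]
      have h2 := rwm_det (R.p k ω) (hdeg k ω) (S.dl 1 k) (Q.v k ((Z.l k).p.π ω)) (fun _ => 0)
      rw [nodp_zero, jac_flag _ (fun j => hdk j ω hω), ← sq_abs, Finset.abs_prod] at h2
      have h3 : (2 : ℝ) ^ ((∑ j, La j - e) * (2 * (S.F k).n)) ≤
          (∏ j, |eval (Q.v k ((Z.l k).p.π ω)) (pderiv j (R.p k ω j))|) ^ 2 := by
        have h4 : ∏ j, (2 : ℝ) ^ ((La j - e / (N + 1)) * (S.F k).n) ≤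
            ∏ j, |eval (Q.v k ((Z.l k).p.π ω)) (pderiv j (R.p k ω j))| :=
          Finset.prod_le_prod (fun j _ => by positivity) fun j _ => h.2 j
        refine le_trans ?_ (pow_le_pow_left₀ (Finset.prod_nonneg fun j _ => by positivity) h4 2)
        rw [← Real.rpow_sum_of_pos (by norm_num), ← Real.rpow_natCast, ← Real.rpow_mul (by norm_num),
          ← Finset.sum_mul, Finset.sum_sub_distrib, Finset.sum_const, Finset.card_univ, Fintype.card_fin, nsmul_eq_mul]
        apply Real.rpow_le_rpow_of_exponent_le (by norm_num)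
        have h5 : (N : ℝ) * (e / (N + 1)) ≤ e := by
          rw [mul_div_assoc', div_le_iff₀ hN]
          nlinarith
        push_cast
        nlinarith
      have h4 : (2 : ℝ) ^ ((∑ j, La j - e) * (2 * (S.F k).n)) ≤
          GQ (S.dl 1 k) (rwm (N * D + D) (R.p k ω)) (Q.v k ((Z.l k).p.π ω)) := h3.trans h2
      have h5 : 0 < GQ (S.dl 1 k) (rwm (N * D + D) (R.p k ω)) (Q.v k ((Z.l k).p.π ω)) :=
        lt_of_lt_of_le (by positivity) h4
      have h6 := (Real.le_logb_iff_rpow_le (b := 2) (by norm_num) h5).2 h4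
      have h7 : ∑ j, La j - e ≤ Real.logb 2 (GQ (S.dl 1 k) (rwm (N * D + D) (R.p k ω))
          (Q.v k ((Z.l k).p.π ω))) / (2 * (S.F k).n) := by
        rw [le_div_iff₀ (by positivity)]
        exact h6
      linarith
    · have e1 : (fun k => ∑ ω, (Z.l.sp.F k).μ ω * (fun (_ : ℕ) (_ : (Z.l.sp.F k).Ω) => ∑ j, La j) k ω) =
          fun _ => ∑ j, La j := by
        funext k
        rw [← Finset.sum_mul, Pool.Agent.Helper3.PR.sum_mu, one_mul]
      rw [e1, ul_const]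
      have h1 : ul (vx Q (rwx Z.l (N * D + D) (gaq Q (N * D + D)).cp R.p)) ≤ ∑ j, La j := by linarith
      exact h1
  set e1 : ℝ := ε / (2 * (N + 1)) with he1
  have he10 : 0 < e1 := by positivity
  refine Typ.mono (S := Z.l.sp) (Typ.and (S := Z.l.sp) hT (Typ.and (S := Z.l.sp) (hgeA e1 he10) (key e1 he10))) ?_
  have hC0S := (S.Sub_const (zero_le_one.trans hC01)).eventually_le he10
  filter_upwards [hg, eventually_all.2 hd, hC0S] with k hk hdk hC0k
  intro (ω : (Z.l k).T.Ω) hω h y hy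
  have hn := (S.F k).pos
  have h1 := ((hk ω hω).2 h.1).1
  have h2 := h.2.2
  have h3 : gx Q k ((Z.l k).p.π ω) ((rwx Z.l (N * D + D) (gaq Q (N * D + D)).cp R.p k).g ω) ≤ ∑ j, La j + e1 := by
    have := (abs_le.1 h2).1
    linarith
  have h4 : Real.logb 2 (GQ (S.dl 1 k) (rwm (N * D + D) (R.p k ω)) (Q.v k ((Z.l k).p.π ω))) / (2 * (S.F k).n) ≤
      ∑ j, La j + e1 := by
    rw [← h1]
    exact h3
  have hA0 : ∀ x, 0 ≤ x ⬝ᵥ (rwm (N * D + D) (R.p k ω) *ᵥ x) := fun x => (rwm_pd _).nonneg x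
  have h5 : 0 < GQ (S.dl 1 k) (rwm (N * D + D) (R.p k ω)) (Q.v k ((Z.l k).p.π ω)) :=
    lt_of_lt_of_le one_pos (one_le_GQ _ (rwm_symm _) hA0 _)
  rw [div_le_iff₀ (by positivity), Real.logb_le_iff_le_rpow (by norm_num) h5] at h4
  have h6 : GQ (S.dl 1 k) (rwm (N * D + D) (R.p k ω)) (Q.v k ((Z.l k).p.π ω)) ≤
      ((2 : ℝ) ^ ((∑ j, La j + e1) * (S.F k).n)) ^ 2 := by
    refine h4.trans (le_of_eq ?_)
    rw [← Real.rpow_natCast, ← Real.rpow_mul (by norm_num)]
    congr 1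
    push_cast
    ring
  have h7 := hC0 (R.p k ω) (R.deg k ω) (fun j => hdk j ω hω) (Q.v k ((Z.l k).p.π ω)) (S.dl 1 k) _
    (fun j => (2 : ℝ) ^ ((La j - e1) * (S.F k).n)) (S.dl_pos 1 k) (by positivity) h6 (fun j => by positivity)
    h.2.1 z y hy
  refine h7.trans ?_
  rw [← Real.rpow_sum_of_pos (by norm_num), mul_div_assoc, ← Real.rpow_sub (by norm_num)]
  have h8 : (2 : ℝ) ^ (e1 * (S.F k).n) * 2 ^ ((∑ j, La j + e1) * (S.F k).n -
      ∑ j ∈ Finset.univ.erase z, (La j - e1) * (S.F k).n) ≤ 2 ^ ((La z + ε) * (S.F k).n) := by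
    rw [← Real.rpow_add (by norm_num), ← Finset.sum_mul]
    apply Real.rpow_le_rpow_of_exponent_le (by norm_num)
    have e2 : ∑ j, La j = ∑ j ∈ Finset.univ.erase z, La j + La z :=
      (Finset.sum_erase_add _ _ (Finset.mem_univ z)).symm
    have e3 : ∑ j ∈ Finset.univ.erase z, (La j - e1) = ∑ j ∈ Finset.univ.erase z, La j -
        ((Finset.univ.erase z).card : ℝ) * e1 := by
      rw [Finset.sum_sub_distrib, Finset.sum_const, nsmul_eq_mul]
    have e4 : ((Finset.univ.erase z).card : ℝ) ≤ N := by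
      have : (Finset.univ.erase z).card ≤ N := (Finset.card_le_univ _).trans (by rw [Fintype.card_fin])
      exact_mod_cast this
    have e5 : e1 * (2 * (N + 1)) = ε := by
      rw [he1]
      field_simp
    have e6 : ((Finset.univ.erase z).card : ℝ) * e1 ≤ N * e1 := mul_le_mul_of_nonneg_right e4 he10.le
    rw [e2, e3]
    have e7 : e1 + (∑ j ∈ Finset.univ.erase z, La j + La z + e1) - (∑ j ∈ Finset.univ.erase z, La j -
        ((Finset.univ.erase z).card : ℝ) * e1) ≤ La z + ε := by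
      have e8 : 0 ≤ (N : ℝ) * e1 := by positivity
      rw [← e5]
      linarith
    have e9 := mul_le_mul_of_nonneg_right e7 hn.le
    linarith
  refine le_trans ?_ h8
  exact mul_le_mul_of_nonneg_right ((le_add_of_nonneg_right zero_le_two).trans hC0k) (by positivity)

end dle

end

end Pool.Agent.Helper77.TPX
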