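import Pool.Agent.Helper77.TPX.Add
import Pool.Agent.Helper36.AM.Rw
import Pool.Agent.Helper4.VZ.Fb

/-! LOWER BOUND OF THE RATE OF A ROW: if the derivative of the row in the direction `z` is typically at least `2 ^ (v n)`
the digits of level `v + u a` of the coordinate `z` are known to the digits of level `a` of the row and the other
coordinates. -/

set_option autoImplicit false

namespace Pool.Agent.Helper77.TPX

open Finset Filter Topology MvPolynomial Pool.Agent.Helper69.RK Pool.Agent.Helper31.EC Pool.Agent.Helper31.EC.Sp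
open Pool.Agent.Helper40.EL Pool.Agent.Helper89.LX Pool.Agent.Helper84.MT Pool.Agent.Helper3.LF
open Pool.Agent.Helper7.GZ Pool.Agent.Helper36.AM Pool.Agent.Helper4.VZ

noncomputable section

variable {S : Sp} {N : ℕ}

/-- the scaled row -/
def sqr (p : MvPolynomial (Fin N) ℝ) (s x : ℝ) : MvPolynomial (Fin N) ℝ := C s * (p - C x)

theorem sqr_eval (p : MvPolynomial (Fin N) ℝ) (s x : ℝ) (y : Fin N → ℝ) : eval y (sqr p s x) = s * (eval y p - x) := by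
  unfold sqr
  rw [map_mul, map_sub, eval_C, eval_C]

theorem sqr_deg (p : MvPolynomial (Fin N) ℝ) (s x : ℝ) : (sqr p s x).totalDegree ≤ p.totalDegree := by
  unfold sqr
  refine (totalDegree_mul _ _).trans ?_
  rw [totalDegree_C, zero_add]
  refine (totalDegree_sub _ _).trans ?_
  rw [totalDegree_C]
  exact max_le le_rfl (Nat.zero_le _)

theorem sqr_pderiv (p : MvPolynomial (Fin N) ℝ) (s x : ℝ) (z : Fin N) (y : Fin N → ℝ) :
    eval y (pderiv z (sqr p s x)) = s * eval y (pderiv z p) := by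
  unfold sqr
  rw [pderiv_C_mul, map_sub, pderiv_C, sub_zero, map_mul, eval_C]

/-- the corner of the cell -/
def crx (d x : ℝ) : ℝ := d * ⌊x / d⌋

theorem crx_near {d : ℝ} (hd : 0 < d) (x : ℝ) : |x - crx d x| ≤ d := by
  unfold crx
  have h1 := Int.floor_le (x / d)
  have h2 := Int.lt_floor_add_one (x / d)
  rw [le_div_iff₀ hd] at h1
  rw [div_lt_iff₀ hd] at h2
  rw [abs_le]
  constructor <;> nlinarith

section ge

variable {Z : ZU S} {Q : S.VV N} {D : ℕ} {Λ : ℝ} (R : Rows Q Z.l 1 D Λ Z.u) (X : Z.sp.VV 1) (a : ℝ)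

/-- the label which knows the cells of level `a` of the row -/
abbrev lrow : Lab S := Z.l.addW (fun k => Setoid.ker (X.cellv a k))

/-- the scaled rows -/
def srow (k : ℕ) (ω : (Z.l k).T.Ω) : Fin 1 → MvPolynomial (Fin N) ℝ :=
  fun _ => sqr (R.p k ω 0) (S.dl (Z.u * a) k)⁻¹ (crx (Z.sp.dl a k) (X.v k ω 0))

variable {R X a}

theorem srow_ms : ∀ᶠ k in UF, Ms (lrow X a) (fun k ω => srow R X a k ω) k := by
  filter_upwards [R.fn] with k h1
  intro (ω : (Z.l k).T.Ω) (ω' : (Z.l k).T.Ω) a1 a2 a3 a4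
  have h2 := h1 ω ω' a1 a2 a4 a3.1
  have h3 : X.cellv a k ω = X.cellv a k ω' := a3.2
  have h4 : ⌊X.v k ω 0 / Z.sp.dl a k⌋ = ⌊X.v k ω' 0 / Z.sp.dl a k⌋ := congrFun h3 0
  show srow R X a k ω = srow R X a k ω'
  unfold srow crx
  rw [h2, h4]

theorem srow_bd (hX : Rows.IsX Z R X) (ha1 : a ≤ 1) (DD : ℕ) : ∃ K : ℕ → ℝ, S.Sub K ∧
    Sp.Typ (S := (lrow X a).sp) (fun k ω => RwB (lrow X a) DD Q (fun k ω => srow R X a k ω) K k ω) := by
  obtain ⟨KX, hKX, hX⟩ := hX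
  obtain ⟨KL, hKL, hlp⟩ := R.lp (fun _ => 1) (S.Sub_const zero_le_one)
  refine ⟨fun k => KL k + KX k + 1, (hKL.add hKX).add (S.Sub_const zero_le_one), ?_⟩
  have hE : Typ (S := Z.l.sp) (fun k (ω : (Z.l k).T.Ω) =>
    (∀ j, |X.v k ω j - Rows.val Z R k ω j| ≤ KX k * S.dl Z.u k) ∧
      ∀ y : Fin N → ℝ, (∀ i, |y i - Q.v k ((Z.l k).p.π ω) i| ≤ 1 * S.dl 1 k) → ∀ j,
      |MvPolynomial.eval y (R.p k ω j) - MvPolynomial.eval (Q.v k ((Z.l k).p.π ω)) (R.p k ω j)| ≤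
        KL k * S.dl Z.u k) := Typ.and (S := Z.sp) hX hlp
  refine Typ.mono (S := (lrow X a).sp) hE ?_
  filter_upwards [hKL.1, hKX.1] with k hL0 hX0
  intro (ω : (Z.l k).T.Ω) hω h2 i j
  obtain ⟨h3, h4⟩ := h2
  have hdu := S.dl_pos (Z.u * a) k
  have hdle : S.dl Z.u k ≤ S.dl (Z.u * a) k := S.dl_anti (by nlinarith [Z.hu]) k
  have h5 := h4 (nodp DD (Q.v k ((Z.l k).p.π ω)) (S.dl 1 k) j) (fun i => by
    have e1 : nodp DD (Q.v k ((Z.l k).p.π ω)) (S.dl 1 k) j i -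
        Q.v k ((Z.l k).p.π ω) i = S.dl 1 k * nod DD (j i) := by
      unfold nodp
      ring
    rw [e1, abs_mul, abs_of_pos (S.dl_pos 1 k), abs_of_nonneg (nod_nonneg DD _), one_mul]
    exact mul_le_of_le_one_right (S.dl_pos 1 k).le (nod_le DD _ (Nat.le_of_lt_succ (j i).2))) 0
  have h6 : |X.v k ω 0 - eval (Q.v k ((Z.l k).p.π ω)) (R.p k ω 0)| ≤ KX k * S.dl Z.u k := h3 0
  have h7 := crx_near (Z.sp.dl_pos a k) (X.v k ω 0)
  rw [Z.sp_dl'] at h7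
  show |eval (nodp DD (Q.v k ((Z.l k).p.π ω)) (S.dl 1 k) j)
    (sqr (R.p k ω 0) (S.dl (Z.u * a) k)⁻¹ (crx (Z.sp.dl a k) (X.v k ω 0)))| ≤ KL k + KX k + 1
  rw [sqr_eval, Z.sp_dl', abs_mul, abs_of_pos (inv_pos.2 hdu), inv_mul_le_iff₀ hdu]
  set A := eval (nodp DD (Q.v k ((Z.l k).p.π ω)) (S.dl 1 k) j) (R.p k ω 0)
  set B := eval (Q.v k ((Z.l k).p.π ω)) (R.p k ω 0)
  have h8 : |A - crx (S.dl (Z.u * a) k) (X.v k ω 0)| ≤ |A - B| + |X.v k ω 0 - B| +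
      |X.v k ω 0 - crx (S.dl (Z.u * a) k) (X.v k ω 0)| := by
    have e1 : A - crx (S.dl (Z.u * a) k) (X.v k ω 0) = (A - B) - (X.v k ω 0 - B) +
      (X.v k ω 0 - crx (S.dl (Z.u * a) k) (X.v k ω 0)) := by ring
    rw [e1]
    refine (abs_add_le _ _).trans ?_
    have := abs_sub (A - B) (X.v k ω 0 - B)
    linarith
  have h9 : (KL k + KX k) * S.dl Z.u k ≤ (KL k + KX k) * S.dl (Z.u * a) k :=
    mul_le_mul_of_nonneg_left hdle (add_nonneg hL0 hX0)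
  nlinarith

variable (R X) in
/-- the typical lower bound of the derivative -/
def DGe (z : Fin N) (v : ℝ) : Prop := ∀ ε : ℝ, 0 < ε → Typ (S := Z.l.sp) (fun k (ω : (Z.l k).T.Ω) =>
    (2 : ℝ) ^ ((v - ε) * (S.F k).n) ≤ |eval (Q.v k ((Z.l k).p.π ω)) (pderiv z (R.p k ω 0))|)

theorem srow_zx {z : Fin N} {v : ℝ} (hv : DGe R z v) (hX : Rows.IsX Z R X) (ha1 : a ≤ 1)
    {DD : ℕ} (hDD : D ≤ DD) (δ : ℝ) (hδ : 0 < δ) :
    Sp.Typ (S := (lb (rwx (lrow X a) DD (gaq Q DD).cp (fun k ω => srow R X a k ω))).sp)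
      (fun k ω => v + Z.u * a - δ ≤ zx Q (rwx (lrow X a) DD (gaq Q DD).cp (fun k ω => srow R X a k ω)) z k ω) := by
  obtain ⟨K, hK, hT⟩ := srow_bd (R := R) hX ha1 DD
  obtain ⟨K', hK', h1⟩ := rwx_good (lrow X a) Q (fun k ω => srow R X a k ω)
    (fun k ω i => (sqr_deg _ _ _).trans ((R.deg k ω 0).trans hDD)) srow_ms hK
  have hvδ := hv δ hδ
  have hT2 : Sp.Typ (S := (lrow X a).sp) (fun k (ω : (Z.l k).T.Ω) =>
      RwB (lrow X a) DD Q (fun k ω => srow R X a k ω) K k ω ∧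
      (2 : ℝ) ^ ((v - δ) * (S.F k).n) ≤ |eval (Q.v k ((Z.l k).p.π ω)) (pderiv z (R.p k ω 0))|) :=
    Typ.and (S := (lrow X a).sp) hT hvδ
  refine Typ.mono (S := (lrow X a).sp) hT2 ?_
  filter_upwards [h1] with k h1
  intro (ω : (Z.l k).T.Ω) hω h2
  obtain ⟨h3, h4⟩ := h2
  have h5 := ((h1 ω hω).2 h3).1
  have hn := (S.F k).pos
  show v + Z.u * a - δ ≤ Real.logb 2 (1 + Jq (S.dl 1 k)
    ((rwx (lrow X a) DD (gaq Q DD).cp (fun k ω => srow R X a k ω) k).g ω) (Q.v k ((Z.l k).p.π ω)) z z) / (2 * (S.F k).n)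
  rw [h5]
  have h6 := rwm_Jq (D := DD) (srow R X a k ω) (fun i => (sqr_deg _ _ _).trans ((R.deg k ω 0).trans hDD)) (S.dl 1 k)
    (Q.v k ((Z.l k).p.π ω)) (sgl z)
  rw [sgl_Jq] at h6
  have h7 : ∑ i, (eval (Q.v k ((Z.l k).p.π ω)) (dir (sgl z) (srow R X a k ω i))) ^ 2 =
      ((S.dl (Z.u * a) k)⁻¹ * eval (Q.v k ((Z.l k).p.π ω)) (pderiv z (R.p k ω 0))) ^ 2 := by
    rw [Fin.sum_univ_one, dir_sgl]
    unfold srow
    rw [sqr_pderiv]
  rw [h7] at h6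
  have h8 : (2 : ℝ) ^ ((v + Z.u * a - δ) * (S.F k).n) ≤
      |(S.dl (Z.u * a) k)⁻¹ * eval (Q.v k ((Z.l k).p.π ω)) (pderiv z (R.p k ω 0))| := by
    have e1 : (2 : ℝ) ^ ((v + Z.u * a - δ) * (S.F k).n) =
        (S.dl (Z.u * a) k)⁻¹ * 2 ^ ((v - δ) * (S.F k).n) := by
      unfold Sp.dl
      rw [Real.rpow_neg (by norm_num), inv_inv, ← Real.rpow_add (by norm_num)]
      congr 1
      ring
    rw [e1, abs_mul, abs_of_pos (inv_pos.2 (S.dl_pos _ k))]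
    exact mul_le_mul_of_nonneg_left h4 (inv_pos.2 (S.dl_pos _ k)).le
  have h9 : (2 : ℝ) ^ ((v + Z.u * a - δ) * (2 * (S.F k).n)) ≤
      1 + Jq (S.dl 1 k) (rwm DD (srow R X a k ω)) (Q.v k ((Z.l k).p.π ω)) z z := by
    have e1 : (2 : ℝ) ^ ((v + Z.u * a - δ) * (2 * (S.F k).n)) = (2 ^ ((v + Z.u * a - δ) * (S.F k).n)) ^ 2 := by
      rw [← Real.rpow_natCast, ← Real.rpow_mul (by norm_num)]
      congr 1
      push_cast
      ring
    rw [e1]
    have := pow_le_pow_left₀ (by positivity) h8 2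
    rw [sq_abs] at this
    linarith
  rw [le_div_iff₀ (by positivity), Real.le_logb_iff_rpow_le (by norm_num) (by
    have : (0 : ℝ) < 2 ^ ((v + Z.u * a - δ) * (2 * (S.F k).n)) := by positivity
    linarith)]
  exact h9

/-- DIGITS OF THE COORDINATE FROM DIGITS OF THE ROW -/
theorem row_ge {z : Fin N} {v : ℝ} (hv : DGe R z v) (hX : Rows.IsX Z R X) (ha1 : a ≤ 1)
    (h0 : 0 ≤ v + Z.u * a) (h1 : v + Z.u * a ≤ 1) :
    uL Z ((Q.co z).dg (v + Z.u * a)) ≤ X.dg a ⊔ uL Z ((oth Q z).dg 1) := by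
  classical
  set DD := max D 1 with hDD
  have hD1 : D ≤ DD := le_max_left _ _
  have hD2 : 1 ≤ DD := le_max_right _ _
  obtain ⟨K, hK, hT⟩ := srow_bd (R := R) hX ha1 DD
  have hx := rwx_Adf (κ := Empty) (A := fun i => i.elim) (l := lrow X a) (fun i => i.elim) Q
    (fun k ω => srow R X a k ω) (fun k ω i => (sqr_deg _ _ _).trans ((R.deg k ω 0).trans hD1)) srow_ms hK hT
  have h2 := fib_zero hD2 hx z (oth Q z) (fun i hi => ⟨i, fun k ω => by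
    show (if i = z then 0 else Q.v k ω i) = _
    rw [if_neg hi]⟩) (Q.co z) (fun k ω => rfl) (v + Z.u * a) h0 h1 (fun δ hδ => srow_zx hv hX ha1 hD1 δ hδ)
  have h3 : h (up1 (lrow X a) ((Q.co z).dg (v + Z.u * a))) (up1 (lrow X a) ((oth Q z).dg 1)) = 0 := h2
  have h3' := hr_addW Z.l (fun k => Setoid.ker (X.cellv a k)) Z.u Z.hu (X.bdd a).toInf rfl
    ((Q.co z).dg (v + Z.u * a)) ((oth Q z).dg 1)
  rw [show h (up1 (Z.l.addW fun k => Setoid.ker (X.cellv a k)) ((Q.co z).dg (v + Z.u * a)))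
    (up1 (Z.l.addW fun k => Setoid.ker (X.cellv a k)) ((oth Q z).dg 1)) = 0 from h3] at h3'
  have h4 : h (uL Z ((Q.co z).dg (v + Z.u * a))) (uL Z ((oth Q z).dg 1) ⊔
      Sp.cl (S := Z.sp) (X.bdd a).toInf) = 0 := by
    rcases mul_eq_zero.1 h3'.symm with h5 | h5
    · exact absurd h5 Z.hu.ne'
    · exact h5
  have h5 := h_eq_zero_iff.1 h4
  have h6 : X.dg a = Sp.cl (S := Z.sp) (X.bdd a).toInf := io_eq (X.bdd a)
  rw [h6, sup_comm]
  exact h5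

end ge

end

end Pool.Agent.Helper77.TPX
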