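import Mathlib

/-! A polynomial of one real variable is Lipschitz on the pieces of the sublevel set of its derivative; the pieces are
numbered by the roots. -/

set_option autoImplicit false

namespace Pool.Agent.Helper77.TPX

open Finset

noncomputable section

/-- the number of roots on the left -/
def rix (g : Polynomial ℝ) (x : ℝ) : ℕ := (g.roots.toFinset.filter (fun r => r < x)).card

theorem rix_le {g : Polynomial ℝ} {n : ℕ} (hn : g.natDegree ≤ n) (x : ℝ) : rix g x ∈ Finset.range (n + 1) := by
  rw [Finset.mem_range]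
  unfold rix
  have h1 := Finset.card_filter_le g.roots.toFinset (fun r => r < x)
  have h2 := Multiset.toFinset_card_le g.roots
  have h3 := g.card_roots'
  omega

/-- no change of sign between points with the same number -/
theorem rix_pos {g : Polynomial ℝ} {x y : ℝ} (h : rix g x = rix g y) (hx : 0 ≤ g.eval x) :
    ∀ t, x ≤ t → t ≤ y → 0 ≤ g.eval t := by
  classical
  intro t h1 h2
  by_contra h3
  push Not at h3
  have hg : g ≠ 0 := by
    rintro rfl
    rw [Polynomial.eval_zero] at h3
    exact lt_irrefl _ h3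
  have hc : ContinuousOn (fun s => g.eval s) (Set.Icc x t) := g.continuous.continuousOn
  obtain ⟨r, hr, hr0⟩ := intermediate_value_Icc' h1 hc ⟨h3.le, hx⟩
  have hr0' : g.eval r = 0 := hr0
  have hrt : r ≠ t := by
    rintro rfl
    rw [hr0'] at h3
    exact lt_irrefl _ h3
  have hry : r < y := (lt_of_le_of_ne hr.2 hrt).trans_le h2
  have h4 : g.roots.toFinset.filter (fun r => r < x) ⊂ g.roots.toFinset.filter (fun r => r < y) := by
    rw [Finset.ssubset_iff_of_subset]
    · refine ⟨r, ?_, ?_⟩
      · rw [Finset.mem_filter, Multiset.mem_toFinset, Polynomial.mem_roots hg]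
        exact ⟨hr0', hry⟩
      · rw [Finset.mem_filter]
        rintro ⟨-, h5⟩
        exact absurd hr.1 (not_le.2 h5)
    · intro s hs
      rw [Finset.mem_filter] at hs ⊢
      exact ⟨hs.1, hs.2.trans (lt_of_le_of_lt hr.1 hry)⟩
  have h5 := Finset.card_lt_card h4
  unfold rix at h
  omega

/-- the polynomial whose sign is the bound of the derivative -/
def gdp (f : Polynomial ℝ) (d : ℝ) : Polynomial ℝ := Polynomial.C (d ^ 2) - (Polynomial.derivative f) ^ 2

theorem gdp_eval (f : Polynomial ℝ) (d x : ℝ) : (gdp f d).eval x = d ^ 2 - ((Polynomial.derivative f).eval x) ^ 2 := by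
  unfold gdp
  rw [Polynomial.eval_sub, Polynomial.eval_C, Polynomial.eval_pow]

theorem gdp_pos {f : Polynomial ℝ} {d x : ℝ} (hd : 0 ≤ d) :
    0 ≤ (gdp f d).eval x ↔ |(Polynomial.derivative f).eval x| ≤ d := by
  rw [gdp_eval, sub_nonneg, sq_le_sq, abs_of_nonneg hd]

theorem gdp_deg {f : Polynomial ℝ} {n : ℕ} (hn : f.natDegree ≤ n) (d : ℝ) : (gdp f d).natDegree ≤ 2 * n := by
  unfold gdp
  refine (Polynomial.natDegree_sub_le _ _).trans ?_
  rw [Polynomial.natDegree_C]
  refine max_le (Nat.zero_le _) ?_
  refine Polynomial.natDegree_pow_le.trans ?_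
  exact Nat.mul_le_mul_left _ ((Polynomial.natDegree_derivative_le f).trans (by omega))

/-- LIPSCHITZ on the pieces -/
theorem uni_lip {f : Polynomial ℝ} {d x y : ℝ} (hd : 0 ≤ d) (h : rix (gdp f d) x = rix (gdp f d) y)
    (hx : |(Polynomial.derivative f).eval x| ≤ d) (hy : |(Polynomial.derivative f).eval y| ≤ d) :
    |f.eval x - f.eval y| ≤ d * |x - y| := by
  have key : ∀ a b : ℝ, a ≤ b → rix (gdp f d) a = rix (gdp f d) b → |(Polynomial.derivative f).eval a| ≤ d →
      |f.eval b - f.eval a| ≤ d * |b - a| := by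
    intro a b hab h1 h2
    have h3 := rix_pos h1 ((gdp_pos hd).2 h2)
    have h4 := Convex.norm_image_sub_le_of_norm_hasDerivWithin_le (f := fun s => f.eval s)
      (f' := fun s => (Polynomial.derivative f).eval s) (s := Set.Icc a b) (x := a) (y := b) (C := d)
      (fun s _ => (f.hasDerivAt s).hasDerivWithinAt) (fun s hs => (gdp_pos hd).1 (h3 s hs.1 hs.2)) (convex_Icc a b)
      (Set.left_mem_Icc.2 hab) (Set.right_mem_Icc.2 hab)
    exact h4
  rcases le_total x y with h1 | h1
  · have h2 := key x y h1 h hx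
    rw [abs_sub_comm, abs_sub_comm x y]
    exact h2
  · exact key y x h1 h.symm hy

end

end Pool.Agent.Helper77.TPX
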