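import Pool.Agent.Helper77.TPX.Ge
import Pool.Agent.Helper77.TPX.Idx
import Pool.Agent.Helper50.CV.Few

/-! UPPER BOUND OF THE RATE OF A ROW: if the derivative of the row in the direction `z` is typically at most `2 ^ (v n)`
near the point the digits of level `b` of the row are known to the digits of level `v + u b` of the coordinate `z` and
the other coordinates. -/

set_option autoImplicit false

namespace Pool.Agent.Helper77.TPX

open Finset Filter Topology MvPolynomial Pool.Agent.Helper69.RK Pool.Agent.Helper31.EC Pool.Agent.Helper31.EC.Sp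
open Pool.Agent.Helper40.EL Pool.Agent.Helper89.LX Pool.Agent.Helper84.MT Pool.Agent.Helper3.LF
open Pool.Agent.Helper7.GZ Pool.Agent.Helper36.AM Pool.Agent.Helper4.VZ

noncomputable section

variable {S : Sp} {N : ℕ}

section le

variable {Z : ZU S} {Q : S.VV N} {D : ℕ} {Λ : ℝ} (R : Rows Q Z.l 1 D Λ Z.u) {X : Z.sp.VV 1}

/-- the typical upper bound of the derivative near the point -/
def DLe (z : Fin N) (v : ℝ) : Prop := ∀ ε : ℝ, 0 < ε → Typ (S := Z.l.sp) (fun k (ω : (Z.l k).T.Ω) =>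
    ∀ y : Fin N → ℝ, (∀ i, |y i - Q.v k ((Z.l k).p.π ω) i| ≤ S.dl 1 k) →
      |eval y (pderiv z (R.p k ω 0))| ≤ (2 : ℝ) ^ ((v + ε) * (S.F k).n))

variable (Z Q) in
/-- the class of a point: label, base, cells of the other coordinates -/
def cls (z : Fin N) (k : ℕ) : Setoid (Z.l k).T.Ω :=
  ((Z.l k).V ⊓ (Z.l k).T.Z) ⊓ Setoid.comap (Z.l k).p.π (Setoid.ker ((oth Q z).cellv 1 k))

variable (Z Q) in
/-- a representative -/
def rep (z : Fin N) (k : ℕ) (ω : (Z.l k).T.Ω) : (Z.l k).T.Ω := Quotient.out (Quotient.mk (cls Z Q z k) ω)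

theorem rep_rel (z : Fin N) (k : ℕ) (ω : (Z.l k).T.Ω) : cls Z Q z k (rep Z Q z k ω) ω :=
  Quotient.exact (Quotient.out_eq (Quotient.mk (cls Z Q z k) ω))

theorem rep_eq {z : Fin N} {k : ℕ} {ω ω' : (Z.l k).T.Ω} (h : cls Z Q z k ω ω') : rep Z Q z k ω = rep Z Q z k ω' := by
  unfold rep
  rw [Quotient.sound h]

variable (Z Q) in
/-- the other coordinates of the representative -/
def P0 (z : Fin N) (k : ℕ) (ω : (Z.l k).T.Ω) : Fin N → ℝ := (oth Q z).v k ((Z.l k).p.π (rep Z Q z k ω))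

variable (Z Q) in
/-- the point with the other coordinates of the representative -/
def Y0 (z : Fin N) (k : ℕ) (ω : (Z.l k).T.Ω) : Fin N → ℝ :=
  fun i => P0 Z Q z k ω i + Q.v k ((Z.l k).p.π ω) z * sgl z i

theorem P0_z (z : Fin N) (k : ℕ) (ω : (Z.l k).T.Ω) : P0 Z Q z k ω z = 0 := if_pos rfl

theorem Y0_near (z : Fin N) (k : ℕ) (ω : (Z.l k).T.Ω) (i : Fin N) :
    |Y0 Z Q z k ω i - Q.v k ((Z.l k).p.π ω) i| ≤ S.dl 1 k := by
  have h1 : Y0 Z Q z k ω i = if i = z then P0 Z Q z k ω z + Q.v k ((Z.l k).p.π ω) z else P0 Z Q z k ω i :=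
    ite_sgl z _ _ i
  rw [h1]
  by_cases h : i = z
  · rw [if_pos h, h, P0_z, zero_add, sub_self, abs_zero]
    exact (S.dl_pos 1 k).le
  · rw [if_neg h]
    have h2 : (oth Q z).cellv 1 k ((Z.l k).p.π (rep Z Q z k ω)) = (oth Q z).cellv 1 k ((Z.l k).p.π ω) :=
      (rep_rel (Q := Q) z k ω).2
    have h3 := (oth Q z).cellv_close 1 k _ _ h2 i
    have h4 : (oth Q z).v k ((Z.l k).p.π ω) i = Q.v k ((Z.l k).p.π ω) i := if_neg h
    rw [h4] at h3
    exact h3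

/-- the polynomial of one variable -/
def fun1 (z : Fin N) (k : ℕ) (ω : (Z.l k).T.Ω) : Polynomial ℝ := lnp (P0 Z Q z k ω) (sgl z) (R.p k ω 0)

theorem fun1_eval (z : Fin N) (k : ℕ) (ω : (Z.l k).T.Ω) :
    (fun1 R z k ω).eval (Q.v k ((Z.l k).p.π ω) z) = eval (Y0 Z Q z k ω) (R.p k ω 0) := lnp_eval _ _ _ _

theorem fun1_deriv (z : Fin N) (k : ℕ) (ω : (Z.l k).T.Ω) :
    (Polynomial.derivative (fun1 R z k ω)).eval (Q.v k ((Z.l k).p.π ω) z) =
      eval (Y0 Z Q z k ω) (pderiv z (R.p k ω 0)) := by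
  unfold fun1
  rw [lnp_deriv, dir_sgl]
  exact lnp_eval _ _ _ _

theorem fun1_deg (z : Fin N) (k : ℕ) (ω : (Z.l k).T.Ω) : (fun1 R z k ω).natDegree ≤ D :=
  (lnp_deg _ _ _).trans (R.deg k ω 0)

/-- DIGITS OF THE ROW FROM DIGITS OF THE COORDINATE, with a loss -/
theorem row_le_eps {z : Fin N} {v : ℝ} (hv : DLe R z v) (hX : Rows.IsX Z R X) {b : ℝ} (hb : b ≤ 1) {ε : ℝ}
    (hε : 0 < ε) : h (X.dg b) (uL Z ((Q.co z).dg (v + Z.u * b)) ⊔
      uL Z ((oth Q z).dg 1)) ≤ ε / Z.u := by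
  classical
  obtain ⟨KX, hKX, hX⟩ := hX
  obtain ⟨KL, hKL, hlp⟩ := R.lp (fun _ => 1) (S.Sub_const zero_le_one)
  -- the index
  obtain ⟨ix, hix⟩ : ∃ ix : ∀ k, (Z.sp.F k).Ω → ℕ, ix = fun k (ω : (Z.l k).T.Ω) =>
    rix (gdp (fun1 R z k ω) (2 ^ ((v + ε) * (S.F k).n))) (Q.v k ((Z.l k).p.π ω) z) := ⟨_, rfl⟩
  obtain ⟨hI, hI0⟩ := Pool.Agent.Helper50.CV.io_few (S := Z.sp) ix (fun _ => Finset.range (2 * D + 1)) (2 * D + 1)
    (Eventually.of_forall fun k ω _ => by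
      rw [hix]
      exact rix_le (gdp_deg (fun1_deg R z k ω) _) _)
    (Eventually.of_forall fun k => (Finset.card_range _).le)
  set A1 : Z.sp.Inf := Z.l.upI Z.u Z.hu ((Q.co z).bdd (v + Z.u * b)).toInf with hA1
  set A2 : Z.sp.Inf := Z.l.upI Z.u Z.hu ((oth Q z).bdd 1).toInf with hA2
  set A3 : Z.sp.Inf := hI.toInf with hA3
  have e1 : uL Z ((Q.co z).dg (v + Z.u * b)) = Sp.cl (S := Z.sp) A1 := by
    unfold VV.dg
    rw [io_eq ((Q.co z).bdd (v + Z.u * b))]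
    rfl
  have e2 : uL Z ((oth Q z).dg 1) = Sp.cl (S := Z.sp) A2 := by
    unfold VV.dg
    rw [io_eq ((oth Q z).bdd 1)]
    rfl
  have e3 : Sp.cl (S := Z.sp) A3 = ⊥ := by
    rw [← hI0, io_eq hI]
  have e4 : uL Z ((Q.co z).dg (v + Z.u * b)) ⊔ uL Z ((oth Q z).dg 1) =
      Sp.cl (S := Z.sp) (Inf.sup (Inf.sup A1 A2) A3) := by
    rw [Sp.cl_sup, Sp.cl_sup, e3, sup_bot_eq, e1, e2]
  rw [e4]
  have hE : Typ (S := Z.sp) (fun k (ω : (Z.l k).T.Ω) => ((∀ j, |X.v k ω j - Rows.val Z R k ω j| ≤ KX k * S.dl Z.u k) ∧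
      ∀ y : Fin N → ℝ, (∀ i, |y i - Q.v k ((Z.l k).p.π ω) i| ≤ 1 * S.dl 1 k) → ∀ j,
      |MvPolynomial.eval y (R.p k ω j) - MvPolynomial.eval (Q.v k ((Z.l k).p.π ω)) (R.p k ω j)| ≤
        KL k * S.dl Z.u k) ∧ ∀ y : Fin N → ℝ, (∀ i, |y i - Q.v k ((Z.l k).p.π ω) i| ≤ S.dl 1 k) →
      |eval y (pderiv z (R.p k ω 0))| ≤ (2 : ℝ) ^ ((v + ε) * (S.F k).n)) :=
    Typ.and (S := Z.sp) (Typ.and (S := Z.sp) hX hlp) (hv ε hε)
  have hKK : S.Sub (fun k => 2 * (KX k + KL k) + 1) :=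
    ((S.Sub_const (by norm_num)).mul (hKX.add hKL)).add (S.Sub_const zero_le_one)
  have hfin := VV.h_dg_le (S := Z.sp) X b (ε / Z.u) (div_nonneg hε.le Z.hu.le) (Inf.sup (Inf.sup A1 A2) A3) _ hE
    (fun k => 2 * (KX k + KL k) + 1) (Z.Sub_sp.1 hKK) (by
      filter_upwards [R.fn, hKX.1, hKL.1] with k hfn hX0 hL0
      intro (ω : (Z.l k).T.Ω) (ω' : (Z.l k).T.Ω) a1 a2 h1 h2 g r i
      obtain ⟨g1, g2, -⟩ := Z.hZ k ω ω' a1 a2 g
      obtain ⟨⟨r1, r2⟩, r3⟩ := r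
      have r1' : (Q.co z).cellv (v + Z.u * b) k ((Z.l k).p.π ω) =
        (Q.co z).cellv (v + Z.u * b) k ((Z.l k).p.π ω') := r1
      have r2' : (oth Q z).cellv 1 k ((Z.l k).p.π ω) = (oth Q z).cellv 1 k ((Z.l k).p.π ω') := r2
      have r3' : ix k ω = ix k ω' := r3
      have i0 : i = 0 := Subsingleton.elim _ _
      rw [i0]
      have hcl : cls Z Q z k ω ω' := ⟨⟨g1, g2⟩, r2'⟩
      have hp : R.p k ω = R.p k ω' := hfn ω ω' a1 a2 g2 g1
      have hf : fun1 R z k ω = fun1 R z k ω' := by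
        unfold fun1 P0
        rw [hp, rep_eq hcl]
      obtain ⟨⟨h1a, h1b⟩, h1c⟩ := h1
      obtain ⟨⟨h2a, h2b⟩, h2c⟩ := h2
      have b1 : |X.v k ω 0 - eval (Q.v k ((Z.l k).p.π ω)) (R.p k ω 0)| ≤ KX k * S.dl Z.u k := h1a 0
      have b2 : |X.v k ω' 0 - eval (Q.v k ((Z.l k).p.π ω')) (R.p k ω' 0)| ≤ KX k * S.dl Z.u k := h2a 0
      have b3 := h1b (Y0 Z Q z k ω) (fun i => by rw [one_mul]; exact Y0_near z k ω i) 0
      have b4 := h2b (Y0 Z Q z k ω') (fun i => by rw [one_mul]; exact Y0_near z k ω' i) 0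
      have b5 := h1c (Y0 Z Q z k ω) (fun i => Y0_near z k ω i)
      have b6 := h2c (Y0 Z Q z k ω') (fun i => Y0_near z k ω' i)
      rw [← fun1_deriv] at b5 b6
      rw [← fun1_eval] at b3 b4
      have b7 : rix (gdp (fun1 R z k ω) (2 ^ ((v + ε) * (S.F k).n))) (Q.v k ((Z.l k).p.π ω) z) =
          rix (gdp (fun1 R z k ω) (2 ^ ((v + ε) * (S.F k).n))) (Q.v k ((Z.l k).p.π ω') z) := by
        rw [hix] at r3'
        have r4 : rix (gdp (fun1 R z k ω) (2 ^ ((v + ε) * (S.F k).n))) (Q.v k ((Z.l k).p.π ω) z) =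
          rix (gdp (fun1 R z k ω') (2 ^ ((v + ε) * (S.F k).n))) (Q.v k ((Z.l k).p.π ω') z) := r3'
        rw [r4, hf]
      rw [← hf] at b4 b6
      have hd0 : (0 : ℝ) ≤ 2 ^ ((v + ε) * (S.F k).n) := by positivity
      have b8 := uni_lip hd0 b7 b5 b6
      have b9 : |Q.v k ((Z.l k).p.π ω) z - Q.v k ((Z.l k).p.π ω') z| ≤ S.dl (v + Z.u * b) k :=
        (Q.co z).cellv_close (v + Z.u * b) k _ _ r1' 0
      have b10 : (2 : ℝ) ^ ((v + ε) * (S.F k).n) * S.dl (v + Z.u * b) k = Z.sp.dl (b - ε / Z.u) k := by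
        rw [Z.sp_dl']
        unfold Sp.dl
        rw [← Real.rpow_add (by norm_num)]
        congr 1
        have := Z.hu.ne'
        field_simp
        ring
      have b11 : |(fun1 R z k ω).eval (Q.v k ((Z.l k).p.π ω) z) - (fun1 R z k ω).eval (Q.v k ((Z.l k).p.π ω') z)| ≤
          Z.sp.dl (b - ε / Z.u) k := by
        rw [← b10]
        exact b8.trans (mul_le_mul_of_nonneg_left b9 hd0)
      have b12 : S.dl Z.u k ≤ Z.sp.dl (b - ε / Z.u) k := by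
        rw [Z.sp_dl']
        apply S.dl_anti
        have e5 : Z.u * (b - ε / Z.u) = Z.u * b - ε := by
          have := Z.hu.ne'
          field_simp
        rw [e5]
        have := Z.hu
        nlinarith
      set V1 := eval (Q.v k ((Z.l k).p.π ω)) (R.p k ω 0)
      set V2 := eval (Q.v k ((Z.l k).p.π ω')) (R.p k ω' 0)
      set F1 := (fun1 R z k ω).eval (Q.v k ((Z.l k).p.π ω) z)
      set F2 := (fun1 R z k ω).eval (Q.v k ((Z.l k).p.π ω') z)
      have c1 := abs_le.1 b1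
      have c2 := abs_le.1 b2
      have c3 := abs_le.1 b3
      have c4 := abs_le.1 b4
      have c5 := abs_le.1 b11
      have c6 : (KX k + KL k) * S.dl Z.u k ≤ (KX k + KL k) * Z.sp.dl (b - ε / Z.u) k :=
        mul_le_mul_of_nonneg_left b12 (add_nonneg hX0 hL0)
      rw [abs_le]
      constructor <;> nlinarith)
  rw [Nat.cast_one, one_mul] at hfin
  exact hfin

/-- DIGITS OF THE ROW FROM DIGITS OF THE COORDINATE -/
theorem row_le {z : Fin N} {v : ℝ} (hv : DLe R z v) (hX : Rows.IsX Z R X) {b : ℝ} (hb : b ≤ 1) :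
    X.dg b ≤ uL Z ((Q.co z).dg (v + Z.u * b)) ⊔ uL Z ((oth Q z).dg 1) := by
  refine h_le_zero_iff.1 ?_
  apply le_of_forall_pos_le_add
  intro δ hδ
  have h1 := row_le_eps R hv hX hb (mul_pos hδ Z.hu)
  rw [mul_div_assoc, div_self Z.hu.ne', mul_one] at h1
  rw [zero_add]
  exact h1

end le

end

end Pool.Agent.Helper77.TPX
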