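import Pool.Agent.Helper84.MT.Seg
import Pool.Agent.Helper7.GZ.Vo
import Pool.Agent.Helper36.AM.Rw

/-! Products of polynomials on a cube; the determinant of the Jacobian of rows near the point is at most the volume of the
form of the rows. -/

set_option autoImplicit false

namespace Pool.Agent.Helper77.TPX

open Finset MvPolynomial Matrix Pool.Agent.Helper69.RK Pool.Agent.Helper84.MT Pool.Agent.Helper3.LF
open Pool.Agent.Helper95.LF Pool.Agent.Helper7.GZ Pool.Agent.Helper36.AM Pool.Agent.Helper89.LX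

noncomputable section

/-- on a segment: if `F` is not small at one end and the product `F G` is small then `G` is small at the other end -/
theorem prod_seg (N D : ℕ) : ∃ C : ℝ, 1 ≤ C ∧ ∀ F G : MvPolynomial (Fin N) ℝ, F.totalDegree ≤ D → G.totalDegree ≤ D →
    ∀ (p y : Fin N → ℝ) (m f : ℝ), 0 < f → f ≤ |eval p F| →
      (∀ u : ℝ, 0 ≤ u → u ≤ 1 → |eval (fun j => p j + u * (y j - p j)) F| *
        |eval (fun j => p j + u * (y j - p j)) G| ≤ m) → |eval y G| ≤ C * m / f := by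
  classical
  obtain ⟨B, hB1, hB⟩ := seg_mv (D + 1) N
  set K : ℝ := 2 * ((D : ℝ) + 1) with hK
  have hK1 : 1 ≤ K := by
    rw [hK]
    have : (0 : ℝ) ≤ D := Nat.cast_nonneg D
    linarith
  have hK0 : 0 < K := by linarith
  have hBK : 1 ≤ B * K ^ (D + 1) := one_le_mul_of_one_le_of_one_le hB1 (one_le_pow₀ hK1)
  refine ⟨2 * (B * K ^ (D + 1)) ^ 2, by nlinarith, ?_⟩
  intro F G hF hG p y m f hf hfp hm
  obtain ⟨hRF, -⟩ := hB F (by omega) p y
  obtain ⟨hRG, -⟩ := hB G (by omega) p y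
  set φF : ℝ → ℝ := fun u => eval (fun j => p j + u * (y j - p j)) F with hφF
  set φG : ℝ → ℝ := fun u => eval (fun j => p j + u * (y j - p j)) G with hφG
  have e0 : φF 0 = eval p F := by
    have e : (fun j => p j + 0 * (y j - p j)) = p := by
      funext j
      ring
    show eval (fun j => p j + 0 * (y j - p j)) F = _
    rw [e]
  have e1 : φG 1 = eval y G := by
    have e : (fun j => p j + 1 * (y j - p j)) = y := by
      funext j
      ring
    show eval (fun j => p j + 1 * (y j - p j)) G = _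
    rw [e]
  set x : Fin (2 * (D + 1) + 1) → ℝ := fun i => (i : ℝ) / K with hx
  have hx01 : ∀ i, x i ∈ Set.Icc (0 : ℝ) 1 := by
    intro i
    have h2 : ((i : ℕ) : ℝ) ≤ K := by
      have h3 : (i : ℕ) ≤ 2 * (D + 1) := Nat.le_of_lt_succ i.2
      have h4 : ((i : ℕ) : ℝ) ≤ ((2 * (D + 1) : ℕ) : ℝ) := by exact_mod_cast h3
      rw [hK]
      push_cast at h4
      linarith
    refine ⟨by rw [hx]; positivity, ?_⟩
    rw [hx]
    show (i : ℝ) / K ≤ 1
    rw [div_le_one hK0]
    exact h2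
  have hsep : ∀ i j, i ≠ j → 1 / K ≤ |x i - x j| := by
    intro i j hij
    rw [hx]
    show 1 / K ≤ |(i : ℝ) / K - (j : ℝ) / K|
    rw [← sub_div, abs_div, abs_of_pos hK0]
    apply div_le_div_of_nonneg_right _ hK0.le
    have h3 : (i : ℤ) - (j : ℤ) ≠ 0 := by
      intro h4
      apply hij
      ext
      omega
    have h4 : (1 : ℤ) ≤ |(i : ℤ) - (j : ℤ)| := Int.one_le_abs h3
    exact_mod_cast h4
  set δ : ℝ := f / (2 * (B * K ^ (D + 1))) with hδ
  have hδ0 : 0 < δ := by positivity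
  obtain ⟨T, hT⟩ : ∃ T : Finset (Fin (2 * (D + 1) + 1)), T = Finset.univ.filter fun i => |φF (x i)| ≤ δ := ⟨_, rfl⟩
  have hTm : ∀ i, i ∈ T → |φF (x i)| ≤ δ := fun i hi => by
    rw [hT, Finset.mem_filter] at hi
    exact hi.2
  -- few small points
  have h1 : T.card ≤ D + 1 := by
    by_contra hc
    push Not at hc
    have hc' : D + 1 + 1 ≤ T.card := hc
    have h2 := hRF (fun i => x (T.orderEmbOfCardLe hc' i)) (1 / K) δ (by positivity) (fun i => hx01 _)
      (fun i j hij => hsep _ _ fun h => hij ((T.orderEmbOfCardLe hc').injective h))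
      (fun i => hTm _ (T.orderEmbOfCardLe_mem hc' i)) 0 ⟨le_rfl, zero_le_one⟩
    have h3 : |φF 0| ≤ B * (1 / (1 / K)) ^ (D + 1) * δ := h2
    rw [one_div_one_div, e0] at h3
    have h4 : B * K ^ (D + 1) * δ = f / 2 := by
      rw [hδ]
      field_simp
    rw [h4] at h3
    linarith
  -- many large points
  obtain ⟨T', hT'⟩ : ∃ T' : Finset (Fin (2 * (D + 1) + 1)),
    T' = Finset.univ.filter fun i => ¬ |φF (x i)| ≤ δ := ⟨_, rfl⟩
  have hTm' : ∀ i, i ∈ T' → δ < |φF (x i)| := fun i hi => by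
    rw [hT', Finset.mem_filter] at hi
    exact not_le.1 hi.2
  have h2 : D + 1 + 1 ≤ T'.card := by
    have h3 : T.card + T'.card = 2 * (D + 1) + 1 := by
      rw [hT, hT', Finset.card_filter_add_card_filter_not, Finset.card_univ, Fintype.card_fin]
    omega
  have hm0 : 0 ≤ m := (mul_nonneg (abs_nonneg _) (abs_nonneg _)).trans (hm 0 le_rfl zero_le_one)
  have h3 := hRG (fun i => x (T'.orderEmbOfCardLe h2 i)) (1 / K) (m / δ) (by positivity) (fun i => hx01 _)
    (fun i j hij => hsep _ _ fun h => hij ((T'.orderEmbOfCardLe h2).injective h))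
    (fun i => by
      have h4 := hTm' _ (T'.orderEmbOfCardLe_mem h2 i)
      have h5 := hm (x (T'.orderEmbOfCardLe h2 i)) (hx01 _).1 (hx01 _).2
      have h6 : |φF (x (T'.orderEmbOfCardLe h2 i))| * |φG (x (T'.orderEmbOfCardLe h2 i))| ≤ m := h5
      show |φG (x (T'.orderEmbOfCardLe h2 i))| ≤ m / δ
      rw [le_div_iff₀ hδ0]
      have h7 := abs_nonneg (φG (x (T'.orderEmbOfCardLe h2 i)))
      nlinarith) 1 ⟨zero_le_one, le_rfl⟩
  have h4 : |φG 1| ≤ B * (1 / (1 / K)) ^ (D + 1) * (m / δ) := h3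
  rw [one_div_one_div, e1] at h4
  refine h4.trans (le_of_eq ?_)
  rw [hδ]
  field_simp

theorem rwm_Jq_nod {M N D : ℕ} (p : Fin N → MvPolynomial (Fin M) ℝ) (hp : ∀ i, (p i).totalDegree ≤ D) (r : ℝ)
    (P e : Fin M → ℝ) (j : Fin M → Fin (D + 1)) :
    ∑ i, (eval (nodp D P r j) (dir e (p i))) ^ 2 ≤ e ⬝ᵥ (Jq r (rwm D p) P *ᵥ e) := by
  rw [Jq_qf]
  have h0 : ∀ j : Fin M → Fin (D + 1), 0 ≤ (Wq M D (nodp D P r j) *ᵥ e) ⬝ᵥ
      (rwm D p *ᵥ (Wq M D (nodp D P r j) *ᵥ e)) := fun j => (rwm_pd p).nonneg _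
  refine le_trans ?_ (Finset.single_le_sum (f := fun j : Fin M → Fin (D + 1) => (Wq M D (nodp D P r j) *ᵥ e) ⬝ᵥ
      (rwm D p *ᵥ (Wq M D (nodp D P r j) *ᵥ e))) (fun j _ => h0 j) (Finset.mem_univ j))
  show _ ≤ (Wq M D (nodp D P r j) *ᵥ e) ⬝ᵥ (rwm D p *ᵥ (Wq M D (nodp D P r j) *ᵥ e))
  rw [rwm_qf]
  have h1 : ∑ i, (eval (nodp D P r j) (dir e (p i))) ^ 2 =
      ∑ i, (cfs D (p i) ⬝ᵥ (Wq M D (nodp D P r j) *ᵥ e)) ^ 2 := by
    refine Finset.sum_congr rfl fun i _ => ?_
    rw [← eval_dir, pol_cfs _ (hp i)]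
  rw [h1]
  have := dot_self_nonneg (Wq M D (nodp D P r j) *ᵥ e)
  linarith

/-- THE JACOBIAN of the rows near the point is at most the volume of the form of the rows -/
theorem rwm_det {N D : ℕ} (p : Fin N → MvPolynomial (Fin N) ℝ) (hp : ∀ i, (p i).totalDegree ≤ D) (r : ℝ)
    (P : Fin N → ℝ) (j : Fin N → Fin (D + 1)) : (jac p (nodp D P r j)).det ^ 2 ≤ GQ r (rwm D p) P := by
  set y := nodp D P r j with hy
  have hA0 : ∀ x, 0 ≤ x ⬝ᵥ (rwm D p *ᵥ x) := fun x => (rwm_pd p).nonneg x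
  have hG : 1 ≤ GQ r (rwm D p) P := one_le_GQ r (rwm_symm p) hA0 P
  rcases eq_or_ne (jac p y).det 0 with h0 | h0
  · rw [h0]
    simp only [ne_eq, OfNat.ofNat_ne_zero, not_false_eq_true, zero_pow]
    linarith
  have hu : IsUnit (jac p y).det := isUnit_iff_ne_zero.2 h0
  have hcp : PdM ((jac p y).transpose * 1 * jac p y) := by
    refine ⟨?_, fun v hv => ?_⟩
    · unfold Matrix.IsSymm
      rw [Matrix.transpose_mul, Matrix.transpose_mul, Matrix.transpose_transpose, Matrix.transpose_one,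
        Matrix.mul_assoc]
    · rw [dv_conj, Matrix.one_mulVec]
      apply self_pos
      intro h1
      apply hv
      have h2 : (jac p y)⁻¹ *ᵥ (jac p y *ᵥ v) = v := by
        rw [Matrix.mulVec_mulVec, Matrix.nonsing_inv_mul _ hu, Matrix.one_mulVec]
      rw [← h2, h1, Matrix.mulVec_zero]
  have h1 := det_le_pow (one_Jq_pd r (rwm_symm p) hA0 P) hcp (K := 1) (by norm_num) (fun v => by
    rw [dv_conj, Matrix.one_mulVec, dv_add, one_dv, one_mul]
    have h2 := rwm_Jq_nod p hp r P v j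
    have h3 : (jac p y *ᵥ v) ⬝ᵥ (jac p y *ᵥ v) = ∑ i, (eval y (dir v (p i))) ^ 2 := by
      unfold dotProduct
      refine Finset.sum_congr rfl fun i _ => ?_
      have h4 : (jac p y *ᵥ v) i = eval y (dir v (p i)) := by
        unfold dir Matrix.mulVec dotProduct
        rw [map_sum]
        refine Finset.sum_congr rfl fun a _ => ?_
        rw [map_mul, eval_C, mul_comm]
        rfl
      rw [h4, pow_two]
    rw [h3]
    have := self_nonneg' v
    linarith)
  rw [one_pow, one_mul, Matrix.mul_one, Matrix.det_mul, Matrix.det_transpose, ← pow_two] at h1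
  exact h1

/-- the Jacobian of a flag -/
theorem jac_flag {N : ℕ} (p : Fin N → MvPolynomial (Fin N) ℝ) (hd : ∀ j, ∀ i ∈ (p j).vars, i.val < j.val + 1)
    (y : Fin N → ℝ) : (jac p y).det = ∏ j, eval y (pderiv j (p j)) := by
  have h1 : (jac p y).BlockTriangular OrderDual.toDual := by
    intro i a hia
    have h2 : i < a := hia
    show eval y (pderiv a (p i)) = 0
    rw [pderiv_eq_zero_of_notMem_vars, map_zero]
    intro h3
    have h4 := hd i a h3
    omega
  rw [Matrix.det_of_lowerTriangular _ h1]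
  rfl

end

end Pool.Agent.Helper77.TPX
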