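import Pool.Agent.Helper71.VIS.Ttn
import Pool.Agent.Helper7.RD.Pf
import Pool.Agent.Helper26.MT.Ze
import Pool.Agent.Helper63.ZMX.Imx
import Pool.Agent.Helper94.SEL.Flu
import Pool.Agent.Helper84.SEL.Numx
import Pool.Agent.Helper77.TPX.Dle

/-! TOP OF A ZOOM in the coordinates of flag rows over an exact K-label, one law, with an error. -/

set_option autoImplicit false

namespace Pool.Agent.Helper77.TPX

open Finset Filter Topology MvPolynomial Pool.Agent.Helper69.RK Pool.Agent.Helper31.EC Pool.Agent.Helper31.EC.Sp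
open Pool.Agent.Helper40.EL Pool.Agent.Helper89.LX Pool.Agent.Helper84.MT Pool.Agent.Helper3.LF
open Pool.Agent.Helper7.GZ Pool.Agent.Helper36.AM Pool.Agent.Helper4.VZ
open Pool.Agent.Helper7.RD (PZ RW WZ upz clz volC volCO volC_eq volCO_le roz KLb_cl)
open Pool.Agent.Helper87.NSL (cndR KnS)
open Pool.Agent.Helper29.MX (Rsl rover KLb volK volKO volKO_eq volP pfx Pt KZ)
open Pool.Agent.Helper94.SEL (num tot lmd)
open Pool.Agent.Helper71.VIS (klb_cell oth_pfx pre_full H_addW_zero)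

noncomputable section

variable {S : Sp} {N M : ℕ}

section stp

variable {Z : ZU S} {Q : S.VV N} {D : ℕ} {Λ : ℝ} {R : Rows Q Z.l N D Λ Z.u} {X : Z.sp.VV N} {La : Fin N → ℝ}

/-- TOP FOR THE ZOOM, one law, one pair of levels, with an error -/
theorem top_step_e {z : Fin N} (hF : Flg R La z) (hX : Rows.IsX Z R X) {ρ ε l : ℝ}
    (hT : ∀ a b : ℝ, 0 ≤ a → a ≤ b → b ≤ l → h ((Q.co z).dg b) ((Q.co z).dg a ⊔ (oth Q z).dg 1) ≤
      (1 - ρ) * (b - a) + ε) {a b : ℝ}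
    (ha : 0 ≤ a) (hab : a ≤ b) (hb1 : b ≤ 1) (hl : La z + Z.u * b ≤ l) (y : Lab Z.sp)
    (hy : H (up1 y ((X.co z).dg b)) = 0) {α β : ℝ} (hα : α ≤ H (up1 y (uL Z ((oth Q z).dg 1))))
    (hβ : H (up1 y ((oth X z).dg 1)) ≤ β) :
    h ((X.co z).dg b) ((X.co z).dg a ⊔ (oth X z).dg 1) ≤
      ((1 - ρ) * (b - a) + ε / Z.u) + (flgN Z La z - (α - β)) := by
  have hu := Z.hu
  have ha1 : a ≤ 1 := hab.trans hb1
  have k8 : (oth X z).dg 1 ≤ uL Z ((oth Q z).dg 1) := by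
    rw [oth_last X hF.lst, oth_last Q hF.lst]
    exact flag_le hX hF.dep z.val
  have kn : h (uL Z ((oth Q z).dg 1)) ((oth X z).dg 1) ≤ flgN Z La z := by
    rw [oth_last X hF.lst, oth_last Q hF.lst]
    exact flag_h hX hF.dep hF.ge hF.h0 hF.h1 z.val z.isLt.le
  have k5 : (X.co z).dg b ≤ uL Z ((Q.co z).dg (La z + Z.u * b)) ⊔ (X.co z).dg a ⊔ uL Z ((oth Q z).dg 1) := by
    refine (row_le (rone R z) hF.le (rone_isX hX z) hb1).trans ?_
    exact sup_le (le_sup_left.trans le_sup_left) le_sup_right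
  have hz0 := hF.h0 z
  have hz1 := hF.h1 z
  have k6 : uL Z ((Q.co z).dg (La z + Z.u * a)) ≤ (X.co z).dg a ⊔ uL Z ((oth Q z).dg 1) := by
    apply row_ge (hF.ge z) (rone_isX hX z) ha1
    · have := mul_nonneg hu.le ha
      linarith
    · nlinarith
  have k7 : h (uL Z ((Q.co z).dg (La z + Z.u * b))) (uL Z ((Q.co z).dg (La z + Z.u * a)) ⊔
      uL Z ((oth Q z).dg 1)) ≤ (1 - ρ) * (b - a) + ε / Z.u := by
    rw [← uL_sup]
    refine (h_uL_le Z _ _).trans ?_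
    have h1 := hT (La z + Z.u * a) (La z + Z.u * b) (by have := mul_nonneg hu.le ha; linarith)
      (by have := mul_le_mul_of_nonneg_left hab hu.le; linarith) hl
    rw [div_le_iff₀ hu]
    refine h1.trans (le_of_eq ?_)
    field_simp
    ring
  exact topx_slk _ _ _ _ _ _ y hy ((X.co z).dg_mono hab) k8 kn hα hβ k5 k6 k7

end stp

section lab

variable {E' : ℕ → ℕ} {ι : Type} [Finite ι] {g : ℕ}

/-- THE LABELS of the zoom -/
theorem zoom_lab {s : MSys S (M + 1) (lin g) ι} {R : Rsl S} (hst : ∀ m, m < M + 1 → STu m)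
    (hP : Pt s R) {Z : ZU S} (hK : KLb s R Z.c Z.l) {t : MSys Z.sp (M + 1) E' ι} (hPt : Pt t (roz Z R)) {b : ℝ}
    (hw : WZ Z s t b) (hb : b ≤ 1) (hc : Z.c + Z.u * b < 1) {ν : ℝ}
    (hn : volP t (roz Z R) b (Nat.le_succ M) ≤ M - (ν - volP s R (Z.c + Z.u * b) (Nat.le_succ M)) / Z.u)
    {ε : ℝ} (hε : 0 < ε) :
    ∃ (y : Lab Z.sp) (α β : ℝ), H (up1 y ((t.Q.co (Fin.last M)).dg b)) = 0 ∧
      α ≤ H (up1 y (uL Z ((oth s.Q (Fin.last M)).dg 1))) ∧
      H (up1 y ((oth t.Q (Fin.last M)).dg 1)) ≤ β ∧ ν / Z.u - M ≤ α - β + ε := by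
  have hu := Z.hu
  have hc0 : 0 ≤ Z.c + Z.u * b := add_nonneg Z.h0 (mul_nonneg hu.le hw.b0)
  -- a form with nearly optimal volume
  obtain ⟨v, hv⟩ : ∃ v, v = volP t (roz Z R) b (Nat.le_succ M) := ⟨_, rfl⟩
  obtain ⟨D0, hD0⟩ : ∃ D, volC (KZ (roz Z R)) (cndR t (roz Z R) b) (pfx t.Q (Nat.le_succ M)) D < v + ε := by
    apply exists_lt_of_ciInf_lt
    have h1 : v < v + ε := lt_add_of_pos_right _ hε
    rw [hv] at h1 ⊢
    exact h1
  obtain ⟨D, hD1, hD⟩ : ∃ D, 1 ≤ D ∧ volC (KZ (roz Z R)) (cndR t (roz Z R) b) (pfx t.Q (Nat.le_succ M)) D < v + ε :=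
    ⟨max D0 1, le_max_right _ _, (Pool.Agent.Helper84.KR.volC_deg (le_max_left _ _)).trans_lt hD0⟩
  obtain ⟨x, hx⟩ := (gaq (pfx t.Q (Nat.le_succ M)) D).exists_optfK (KZ (roz Z R)) (cndR t (roz Z R) b)
  rw [volC_eq hx] at hD
  have hk : KLb t (roz Z R) b (lb x) := ⟨Gau.Adf.dm _ hx.1.1, hx.1.2⟩
  have hk2 := klb_cell hPt hw.b0 hb hk
  obtain ⟨y, hy⟩ : ∃ y, y = (lb x).addW (cW t b (lb x)) := ⟨_, rfl⟩
  rw [← hy] at hk2
  have hk3 : KLb s R (Z.c + Z.u * b) (clz Z y) := KLb_cl hw hK hk2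
  refine ⟨y, volP s R (Z.c + Z.u * b) (Nat.le_succ M) / Z.u, v + ε, ?_, ?_, ?_, ?_⟩
  · have e1 : (t.Q.co (Fin.last M)).dg b = cl ((t.Q.co (Fin.last M)).bdd b).toInf := io_eq _
    rw [e1, hy]
    refine H_addW_zero (S := Z.sp) (lb x) _ _ fun k ω ω' r => ?_
    have r1 : t.Q.cellv b k ((lb x k).p.π ω) = t.Q.cellv b k ((lb x k).p.π ω') := r
    show (t.Q.co (Fin.last M)).cellv b k ((lb x k).p.π ω) = (t.Q.co (Fin.last M)).cellv b k ((lb x k).p.π ω')
    funext i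
    exact congrFun r1 (Fin.last M)
  · rw [oth_pfx, div_le_iff₀ hu]
    have h1 := pre_full hst hP hc0 hc hk3 (Nat.lt_succ_self M)
    have h2 := Z.l.H_comp Z.u Z.hu y ((pfx s.Q (Nat.le_succ M)).dg 1)
    exact (h1.trans h2.le).trans (mul_comm _ _).le
  · rw [oth_pfx, hy]
    refine (Pool.Agent.Helper89.RAD.H_addW_le _ _ _).trans ?_
    exact (Pool.Agent.Helper14.MC.cnt_vol _ hD1 x hx.1.1).trans hD.le
  · rw [← hv] at hn
    have h5 : (ν - volP s R (Z.c + Z.u * b) (Nat.le_succ M)) / Z.u =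
        ν / Z.u - volP s R (Z.c + Z.u * b) (Nat.le_succ M) / Z.u := sub_div _ _ _
    rw [h5] at hn
    linarith

end lab

section law

variable {E E' : ℕ → ℕ} {ι : Type} [Finite ι] {g : ℕ}

theorem flgN_eq (Z : ZU S) (La : Fin (M + 1) → ℝ) : flgN Z La (Fin.last M) =
    (M - ∑ i : Fin M, La (Fin.castLE (Nat.le_succ M) i)) / Z.u - M := by
  have hu := Z.hu.ne'
  have h1 : flgN Z La (Fin.last M) = ∑ i : Fin M, (1 - La (Fin.castLE (Nat.le_succ M) i) - Z.u) / Z.u := by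
    unfold flgN
    rw [Fin.sum_univ_castSucc]
    have e1 : ¬ ((Fin.last M : Fin (M + 1)).val < (Fin.last M).val) := lt_irrefl _
    rw [if_neg e1, add_zero]
    refine Finset.sum_congr rfl fun i _ => ?_
    have e2 : (Fin.castSucc i : Fin (M + 1)).val < (Fin.last M).val := i.2
    rw [if_pos e2]
    rfl
  rw [h1, ← Finset.sum_div, Finset.sum_sub_distrib, Finset.sum_sub_distrib, Finset.sum_const, Finset.sum_const,
    Finset.card_univ, Fintype.card_fin, nsmul_eq_mul, nsmul_eq_mul]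
  field_simp

/-- FLAG ROWS over a K-label with optimal total exponent -/
theorem flg_of {s : MSys S N E ι} {R : Rsl S} {z : RW s N} {lam : Fin N → ℝ}
    (hf : Pool.Agent.Helper29.MX.Flg z lam) (hK : KLb s R z.Z.c z.Z.l)
    (hv : (N : ℝ) - ∑ j, lam j ≤ volKO s R z.Z.c) (h0 : ∀ j, 0 ≤ lam j) {zl : Fin N} (hz : ∀ j, j ≤ zl) :
    Flg z.R lam zl where
  lst := hz
  dep := fun j => Eventually.of_forall fun k ω _ i hi => by
    have h1 : i ≤ j := hf.tri k ω j i hi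
    exact Nat.lt_succ_of_le h1
  ge := fun j ε hε => (hf.ex ε hε).mono (Eventually.of_forall fun k ω _ h => (h j).1)
  le := by
    refine dle_of_vol (C := KZ R) (A := cndR s R z.Z.c) z.R hK.1 hK.2 (fun j => ?_) lam (fun j ε hε => ?_) (fun DD => ?_) zl
    · exact Eventually.of_forall fun k ω _ i hi => by
        have h1 : i ≤ j := hf.tri k ω j i hi
        exact Nat.lt_succ_of_le h1
    · exact (hf.ex ε hε).mono (Eventually.of_forall fun k ω _ h => (h j).1)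
    · rw [volKO_eq] at hv
      exact hv.trans (volCO_le DD)
  h0 := h0
  h1 := fun j => Pool.Agent.Helper94.SEL.flg_add_le hf j

/-- **TOP OF THE ZOOM, one law, with an error** -/
theorem top_law {s : MSys S (M + 1) (lin g) ι} {R : Rsl S} (hst : ∀ m, m < M + 1 → STu m)
    (hP : Pt s R) {Z : ZU S} (hK : KLb s R Z.c Z.l) (z : PZ Z s.Q (M + 1)) {t : MSys Z.sp (M + 1) E' ι}
    (hQ : t.Q = z.X) (hPt : Pt t (roz Z R)) {La : Fin (M + 1) → ℝ} (hF : Flg z.R La (Fin.last M)) {b1 : ℝ}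
    (hb1 : b1 ≤ 1) (hw : ∀ b : ℝ, 0 ≤ b → b < b1 → WZ Z s t b)
    (hn : ∀ b : ℝ, 0 ≤ b → b < b1 → volP t (roz Z R) b (Nat.le_succ M) ≤
      M - (M - ∑ i : Fin M, La (Fin.castLE (Nat.le_succ M) i) - volP s R (Z.c + Z.u * b) (Nat.le_succ M)) / Z.u)
    {ρ ε l : ℝ} (hl : La (Fin.last M) + Z.u * b1 ≤ l)
    (hT : ∀ a b : ℝ, 0 ≤ a → a ≤ b → b ≤ l → h ((s.Q.co (Fin.last M)).dg b)
      ((s.Q.co (Fin.last M)).dg a ⊔ (oth s.Q (Fin.last M)).dg 1) ≤ (1 - ρ) * (b - a) + ε) (a b : ℝ) (ha : 0 ≤ a)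
    (hab : a ≤ b) (hb : b ≤ b1) : h ((z.X.co (Fin.last M)).dg b)
      ((z.X.co (Fin.last M)).dg a ⊔ (oth z.X (Fin.last M)).dg 1) ≤ (1 - ρ) * (b - a) + ε / Z.u := by
  have hu := Z.hu
  have hZ1 := Z.h1
  have hε : 0 ≤ ε := by
    have hz0 := hF.h0 (Fin.last M)
    have h3 := hT 0 0 le_rfl le_rfl (by
      have := mul_nonneg hu.le (ha.trans (hab.trans hb))
      linarith)
    have h4 := h_nonneg ((s.Q.co (Fin.last M)).dg 0) ((s.Q.co (Fin.last M)).dg 0 ⊔ (oth s.Q (Fin.last M)).dg 1)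
    rw [sub_self, mul_zero, zero_add] at h3
    exact h4.trans h3
  apply le_of_forall_pos_le_add
  intro δ hδ
  rcases hab.eq_or_lt with hab' | hab'
  · rw [← hab']
    have h2 : h ((z.X.co (Fin.last M)).dg a) ((z.X.co (Fin.last M)).dg a ⊔ (oth z.X (Fin.last M)).dg 1) = 0 :=
      h_zero le_sup_left
    have h5 : 0 ≤ ε / Z.u := div_nonneg hε hu.le
    rw [h2]
    linarith
  have hρ : 0 < 1 + |ρ| := by positivity
  obtain ⟨b', hb'⟩ : ∃ b', b' = max a (b - δ / (2 * (1 + |ρ|))) := ⟨_, rfl⟩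
  have hd : 0 < δ / (2 * (1 + |ρ|)) := by positivity
  have k1 : a ≤ b' := by
    rw [hb']
    exact le_max_left _ _
  have k2 : b' < b := by
    rw [hb']
    exact max_lt hab' (by linarith)
  have k3 : (1 + |ρ|) * (b - b') ≤ δ / 2 := by
    have h3 : b - δ / (2 * (1 + |ρ|)) ≤ b' := by
      rw [hb']
      exact le_max_right _ _
    have h4 : b - b' ≤ δ / (2 * (1 + |ρ|)) := by linarith
    have h5 := mul_le_mul_of_nonneg_left h4 hρ.le
    refine h5.trans (le_of_eq ?_)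
    field_simp
  have k0 : 0 ≤ b' := ha.trans k1
  have k4 : Z.c + Z.u * b' < 1 := by nlinarith
  obtain ⟨y, α, β, y1, y2, y3, y4⟩ := zoom_lab hst hP hK hPt (hw b' k0 (k2.trans_le hb)) (by linarith) k4
    (hn b' k0 (k2.trans_le hb)) (half_pos hδ)
  rw [hQ] at y1 y3
  have hlb : La (Fin.last M) + Z.u * b' ≤ l := by
    have := mul_le_mul_of_nonneg_left (k2.le.trans hb) hu.le
    linarith
  have c3 := top_step_e hF z.hX hT ha k1 (by linarith) hlb y y1 y2 y3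
  rw [flgN_eq] at c3
  have c4 := h_triangle ((z.X.co (Fin.last M)).dg b) ((z.X.co (Fin.last M)).dg b')
    ((z.X.co (Fin.last M)).dg a ⊔ (oth z.X (Fin.last M)).dg 1)
  have c5 : h ((z.X.co (Fin.last M)).dg b) ((z.X.co (Fin.last M)).dg b' ⊔
      ((z.X.co (Fin.last M)).dg a ⊔ (oth z.X (Fin.last M)).dg 1)) ≤ b - b' := by
    refine (h_anti le_sup_left).trans ?_
    have h3 := (z.X.co (Fin.last M)).h_dg_dg k2.le
    rw [Nat.cast_one, one_mul] at h3
    exact h3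
  have k5 : (1 - ρ) * (b' - a) + (b - b') ≤ (1 - ρ) * (b - a) + δ / 2 := by
    have h3 : ρ * (b - b') ≤ |ρ| * (b - b') := mul_le_mul_of_nonneg_right (le_abs_self ρ) (by linarith)
    nlinarith
  linarith

end law

end

end Pool.Agent.Helper77.TPX
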