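import Pool.Agent.Helper77.TPX.Tpe

/-! TOP OF FLAG ZOOMS of rigid stable pairs (rows `TOPF`, `TOPZ` of `Helper94/SEL/St`): zooms over literal labels, the point
of the zoom is resolved, the numbers of the zoom on all events are the numbers of the system. -/

set_option autoImplicit false

namespace Pool.Agent.Helper77.TPX

open Finset Filter Topology MvPolynomial Pool.Agent.Helper69.RK Pool.Agent.Helper31.EC Pool.Agent.Helper31.EC.Sp
open Pool.Agent.Helper40.EL Pool.Agent.Helper89.LX Pool.Agent.Helper84.MT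
open Pool.Agent.Helper36.AM Pool.Agent.Helper49.MD
open Pool.Agent.Helper7.RD (RW roz)
open Pool.Agent.Helper29.MX (Rsl rover KLb AllE Pt)
open Pool.Agent.Helper94.SEL (num tot lmd Top TopZ BK Ctx)

noncomputable section

variable {S : Sp} {M : ℕ}

/-- THE NUMBERS OF THE ZOOM: the label is literal, the point of the zoom is resolved, the exponents of the prefixes on all
events are the increments of the exponents of the system -/
def ZNm' {E : ℕ → ℕ} {ι : Type} {s : MSys S (M + 1) E ι} (z : RW s (M + 1)) (R : Rsl S) (b1 : ℝ) : Prop :=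
  (∃ W : Rsl S, z.Z.l = Lab.ofZ W) ∧ Pt z.sys (rover z.Z.l z.Z.u z.Z.hu R) ∧
    ∀ b : ℝ, 0 ≤ b → b < b1 → AllE (fun _ t R' => ∀ (j : ℕ) (hj : j ≤ M + 1),
      num t R' hj b = (num s R hj (z.Z.c + z.Z.u * b) - num s R hj z.Z.c) / z.Z.u)
        z.Z.sp z.sys (rover z.Z.l z.Z.u z.Z.hu R)

variable {A : MCl (M + 1)} {C : ℕ → MCl (M + 1)} {v m g r e0 : ℕ}

/-- zooms which are rigid stable pairs -/
theorem znm_of {b0 b1 : ℝ} {s : MSys S (M + 1) (lin g) (Fin r)} {R : Rsl S} {z : RW s (M + 1)} {W : Rsl S}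
    (hW : z.Z.l = Lab.ofZ W) (hb : BK (C m) v z.κ r e0 b0 z.Z.sp z.sys (rover z.Z.l z.Z.u z.Z.hu R)) (h10 : b1 ≤ b0)
    (hn : ∀ b : ℝ, 0 ≤ b → b < b1 → ∀ (j : ℕ) (hj : j ≤ M + 1), num z.sys (rover z.Z.l z.Z.u z.Z.hu R) hj b =
      (num s R hj (z.Z.c + z.Z.u * b) - num s R hj z.Z.c) / z.Z.u) : ZNm' z R b1 :=
  ⟨⟨W, hW⟩, hb.cl.2.1, fun b h0 h1 T q B hB j hj => (hb.rig T q B hB b h0 (h1.trans_le h10) j hj).trans (hn b h0 h1 j hj)⟩

/-- TOP OF A FLAG ZOOM, with an error -/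
theorem topf_znm (hc : Ctx M A C v) {b0 : ℝ} {s : MSys S (M + 1) (lin g) (Fin r)} {R : Rsl S}
    (hb : BK (C m) v g r e0 b0 S s R) {z : RW s (M + 1)} {b1 : ℝ} (hb1 : b1 ≤ 1)
    (hx : ∀ b : ℝ, 0 ≤ b → b < b1 → z.Z.c + z.Z.u * b < b0) (hK : KLb s R z.Z.c z.Z.l)
    (hF : Pool.Agent.Helper29.MX.Flg z (lmd s R z.Z.c)) (hZ : ZNm' z R b1) {ρ ε l : ℝ}
    (hl : lmd s R z.Z.c (Fin.last M) + z.Z.u * b1 ≤ l) (hT : Top ρ l ε s.Q) : Top ρ b1 (ε / z.Z.u) z.X := by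
  obtain ⟨⟨W, hW⟩, hPt, hn⟩ := hZ
  exact top_zoom hc.st hb.cl.2.1 hW hK hPt hF hb1
    (fun b h0 h1 T q B hB => (hn b h0 h1 T q B hB M (Nat.le_succ M)).ge)
    (fun b h0 h1 T q B hB => (hb.rig T q B hB _ (add_nonneg z.Z.h0 (mul_nonneg z.Z.hu.le h0)) (hx b h0 h1) M
      (Nat.le_succ M)).le) hl hT

/-- zooms with small units -/
theorem topz_znm (hc : Ctx M A C v) {b0 : ℝ} {s : MSys S (M + 1) (lin g) (Fin r)} {R : Rsl S}
    (hb : BK (C m) v g r e0 b0 S s R) {ρ d l : ℝ} (hl1 : l ≤ 1) (hT : Top ρ d 0 s.Q) {c : ℝ} (hcb : c < b0)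
    (hd : lmd s R c (Fin.last M) < d) : ∃ e1 : ℝ, 0 < e1 ∧ ∀ z : RW s (M + 1), z.Z.c = c → z.Z.u < e1 →
      KLb s R c z.Z.l → Pool.Agent.Helper29.MX.Flg z (lmd s R c) → ZNm' z R l → Top ρ l 0 z.X := by
  refine ⟨min (b0 - c) (d - lmd s R c (Fin.last M)), lt_min (by linarith) (by linarith), ?_⟩
  rintro z rfl hzu hK hF hZ
  have h1 := hzu.trans_le (min_le_left _ _)
  have h2 := hzu.trans_le (min_le_right _ _)
  have hu := z.Z.hu
  have h3 := topf_znm hc hb hl1 (fun b h0 hbl => by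
    have h4 : z.Z.u * b ≤ z.Z.u * 1 := mul_le_mul_of_nonneg_left (hbl.le.trans hl1) hu.le
    linarith) hK hF hZ (by
    have h4 : z.Z.u * l ≤ z.Z.u * 1 := mul_le_mul_of_nonneg_left hl1 hu.le
    linarith) hT
  rw [zero_div] at h3
  exact h3

end

end Pool.Agent.Helper77.TPX
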