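import Pool.Agent.Helper77.TPX.Tpr
import Pool.Agent.Helper63.ZMX.Num
import Pool.Agent.Helper22.OC.Corn

/-! TOP OF FLAG ZOOMS of rigid stable pairs over literal labels: the numbers of the zoom are helper63's `num_zoom`. -/

set_option autoImplicit false

namespace Pool.Agent.Helper77.TPX

open Finset Filter Topology MvPolynomial Pool.Agent.Helper69.RK Pool.Agent.Helper31.EC Pool.Agent.Helper31.EC.Sp
open Pool.Agent.Helper40.EL Pool.Agent.Helper89.LX Pool.Agent.Helper84.MT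
open Pool.Agent.Helper36.AM Pool.Agent.Helper49.MD
open Pool.Agent.Helper7.RD (RW roz)
open Pool.Agent.Helper29.MX (Rsl rover KLb AllE Pt)
open Pool.Agent.Helper94.SEL (num tot lmd Top TopZ BK Ctx)

noncomputable section

variable {S : Sp} {M : ℕ} {A : MCl (M + 1)} {C : ℕ → MCl (M + 1)} {v m g r e0 : ℕ}

/-- the numbers of the zoom over a literal label -/
theorem znm_lit (hc : Ctx M A C v) {b0 : ℝ} {s : MSys S (M + 1) (lin g) (Fin r)} {R : Rsl S}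
    (hb : BK (C m) v g r e0 b0 S s R) {z : RW s (M + 1)} {W : Rsl S} (hW : z.Z.l = Lab.ofZ W)
    (hPt : Pt z.sys (rover z.Z.l z.Z.u z.Z.hu R)) {b1 : ℝ} (hb1 : b1 ≤ 1)
    (hx : ∀ b : ℝ, 0 ≤ b → b < b1 →
      z.Z.c + z.Z.u * b < b0 ∧ tot s R (z.Z.c + z.Z.u * b) < tot s R z.Z.c + z.Z.u) (hK : KLb s R z.Z.c z.Z.l)
    (hF : Pool.Agent.Helper29.MX.Flg z (lmd s R z.Z.c)) : ZNm' z R b1 := by
  refine ⟨⟨W, hW⟩, hPt, fun b h0 h1 => ?_⟩
  have hu := z.Z.hu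
  have hc0 := z.Z.h0
  refine Pool.Agent.Helper63.ZMX.num_zoom hc.st hb.cl.2.1 hW hK hF hPt h0 (h1.trans_le hb1)
    (fun T p B hB j hj => ⟨hb.rig T p B hB _ hc0 ?_ j hj, hb.rig T p B hB _ (by positivity) (hx b h0 h1).1 j hj⟩)
    (hx b h0 h1).2
  have h2 := (hx b h0 h1).1
  have h3 := mul_nonneg hu.le h0
  linarith

/-- TOP OF A FLAG ZOOM, with an error -/
theorem topf_lit (hc : Ctx M A C v) {b0 : ℝ} {s : MSys S (M + 1) (lin g) (Fin r)} {R : Rsl S}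
    (hb : BK (C m) v g r e0 b0 S s R) {z : RW s (M + 1)} {W : Rsl S} (hW : z.Z.l = Lab.ofZ W)
    (hPt : Pt z.sys (rover z.Z.l z.Z.u z.Z.hu R)) {b1 : ℝ} (hb1 : b1 ≤ 1)
    (hx : ∀ b : ℝ, 0 ≤ b → b < b1 →
      z.Z.c + z.Z.u * b < b0 ∧ tot s R (z.Z.c + z.Z.u * b) < tot s R z.Z.c + z.Z.u) (hK : KLb s R z.Z.c z.Z.l)
    (hF : Pool.Agent.Helper29.MX.Flg z (lmd s R z.Z.c)) {ρ ε l : ℝ}
    (hl : lmd s R z.Z.c (Fin.last M) + z.Z.u * b1 ≤ l) (hT : Top ρ l ε s.Q) : Top ρ b1 (ε / z.Z.u) z.X :=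
  topf_znm hc hb hb1 (fun b h0 h1 => (hx b h0 h1).1) hK hF (znm_lit hc hb hW hPt hb1 hx hK hF) hl hT

/-- zooms with small units at a point of differentiability of the total exponent -/
theorem topz_lit (hc : Ctx M A C v) {b0 : ℝ} {s : MSys S (M + 1) (lin g) (Fin r)} {R : Rsl S}
    (hb : BK (C m) v g r e0 b0 S s R) {ρ d l La : ℝ} (hl1 : l ≤ 1) (hLa : 0 ≤ La) (hLl : La * l < 1)
    (hT : Top ρ d 0 s.Q) {c : ℝ} (hcb : c < b0) (hd : lmd s R c (Fin.last M) < d) {w : ℝ} (hw : w ≤ La)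
    (hder : HasDerivAt (fun c => tot s R c) w c) : ∃ e1 : ℝ, 0 < e1 ∧ ∀ z : RW s (M + 1), z.Z.c = c → z.Z.u < e1 →
      KLb s R c z.Z.l → Pool.Agent.Helper29.MX.Flg z (lmd s R c) → (∃ W : Rsl S, z.Z.l = Lab.ofZ W) →
        Pt z.sys (rover z.Z.l z.Z.u z.Z.hu R) → Top ρ l 0 z.X := by
  obtain ⟨e1, he1, h1⟩ := topz_znm (l := l) hc hb hl1 hT hcb hd
  have h2 : 0 < (1 - La * l) / 2 := by linarith
  have h3 := Pool.Agent.Helper22.OC.quot_der hder h2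
  obtain ⟨e2, he2, h4⟩ : ∃ e2 : ℝ, 0 < e2 ∧ ∀ η : ℝ, 0 < η → η < e2 → ∀ t, 0 ≤ t → t ≤ η →
      |tot s R (c + t) - tot s R c - w * t| ≤ (1 - La * l) / 2 * t := by
    have h5 := h3
    rw [eventually_nhdsWithin_iff, Metric.eventually_nhds_iff] at h5
    obtain ⟨e2, he2, h6⟩ := h5
    refine ⟨e2, he2, fun η h0 hη t ht0 ht => h6 (by rw [Real.dist_eq, sub_zero, abs_of_pos h0]; exact hη) h0 t ht0 ht⟩
  refine ⟨min e1 (min e2 (b0 - c)), lt_min he1 (lt_min he2 (by linarith)), ?_⟩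
  rintro z rfl hzu hK hF ⟨W, hW⟩ hPt
  have hu := z.Z.hu
  refine h1 z rfl (hzu.trans_le (min_le_left _ _)) hK hF (znm_lit hc hb hW hPt hl1 (fun b hb0 hbl => ?_) hK hF)
  have h5 : z.Z.u < e2 := hzu.trans_le ((min_le_right _ _).trans (min_le_left _ _))
  have h6 : z.Z.u < b0 - z.Z.c := hzu.trans_le ((min_le_right _ _).trans (min_le_right _ _))
  have h7 : z.Z.u * b ≤ z.Z.u := by nlinarith
  have h8 := h4 z.Z.u hu h5 (z.Z.u * b) (mul_nonneg hu.le hb0) h7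
  rw [abs_le] at h8
  refine ⟨by linarith, ?_⟩
  have h9 : w * (z.Z.u * b) ≤ La * (z.Z.u * l) := by
    have a1 : w * (z.Z.u * b) ≤ La * (z.Z.u * b) := mul_le_mul_of_nonneg_right hw (mul_nonneg hu.le hb0)
    have a2 : La * (z.Z.u * b) ≤ La * (z.Z.u * l) :=
      mul_le_mul_of_nonneg_left (mul_le_mul_of_nonneg_left hbl.le hu.le) hLa
    linarith
  have h10 : (1 - La * l) / 2 * (z.Z.u * b) ≤ (1 - La * l) / 2 * z.Z.u := mul_le_mul_of_nonneg_left h7 h2.le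
  have h11 : La * (z.Z.u * l) + (1 - La * l) / 2 * z.Z.u < z.Z.u := by nlinarith
  linarith [h8.2]

end

end Pool.Agent.Helper77.TPX
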