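import Pool.Agent.Helper77.TPX.Im

/-! TOP FOR TRUNCATIONS AND CHANGES OF THE BASE (the window `0`); TOP gives a deficient point. -/

set_option autoImplicit false

namespace Pool.Agent.Helper77.TPX

open Finset Filter Topology MvPolynomial Pool.Agent.Helper69.RK Pool.Agent.Helper31.EC Pool.Agent.Helper31.EC.Sp
open Pool.Agent.Helper40.EL Pool.Agent.Helper89.LX Pool.Agent.Helper84.MT Pool.Agent.Helper3.LF
open Pool.Agent.Helper7.GZ Pool.Agent.Helper36.AM Pool.Agent.Helper4.VZ Pool.Agent.Helper80.HCI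

noncomputable section

variable {S : Sp} {N : ℕ}

/-- the coordinates as rows -/
def rowsC (Q : S.VV N) (l : Lab S) {u : ℝ} (hu : u ≤ 1) : Rows Q l N 1 0 u where
  p := fun _ _ j => MvPolynomial.X j
  deg := fun _ _ j => (totalDegree_X (R := ℝ) j).le
  fn := Eventually.of_forall fun _ _ _ _ _ _ _ => rfl
  cf := by
    classical
    refine ⟨fun _ => 1, S.Sub_const zero_le_one, Eventually.of_forall fun k ω _ j a => ?_⟩
    rw [zero_mul, Real.rpow_zero, mul_one, coeff_X]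
    split_ifs
    · rw [abs_one]
    · rw [abs_zero]
      exact zero_le_one
  bd := by
    obtain ⟨K, hK, h⟩ := Q.bd
    refine ⟨K, hK, Typ.mono (S := l.sp) Typ_true ?_⟩
    filter_upwards [h] with k h1 ω hω _ j
    rw [eval_X]
    exact h1 _ ((l k).p.supp ω hω) j
  lp := fun L hL => by
    refine ⟨L, hL, Typ.mono (S := l.sp) Typ_true ?_⟩
    filter_upwards [hL.1] with k h0 ω _ _ y hy j
    rw [eval_X, eval_X]
    exact (hy j).trans (mul_le_mul_of_nonneg_left (S.dl_anti hu k) h0)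

/-- the zoom data of the window `0` -/
def zu0 (l : Lab S) {e : ℝ} (he : 0 < e) (h1 : e ≤ 1) : ZU S := ⟨l, 0, e, le_rfl, he, by linarith⟩

/-- the point in the space over the label -/
def xC (Q : S.VV N) (l : Lab S) {e : ℝ} (he : 0 < e) (h1 : e ≤ 1) : (zu0 l he h1).sp.VV N := (l.pj.vv Q).chg l.V e he

theorem xC_isX (Q : S.VV N) (l : Lab S) {e : ℝ} (he : 0 < e) (h1 : e ≤ 1) :
    Rows.IsX (zu0 l he h1) (rowsC Q l h1) (xC Q l he h1) := by
  refine ⟨fun _ => 0, S.Sub_const le_rfl, Typ.mono (S := (zu0 l he h1).sp) Typ_true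
    (Eventually.of_forall fun k ω _ _ j => ?_)⟩
  have h2 : (xC Q l he h1).v k ω j = Rows.val (zu0 l he h1) (rowsC Q l h1) k ω j := (eval_X (σ := Fin N) j).symm
  rw [h2, sub_self, abs_zero, zero_mul]

/-- the coordinates are flag rows with the exponents `0` -/
theorem flgC (Q : S.VV N) (l : Lab S) {e : ℝ} (he : 0 < e) (h1 : e ≤ 1) {z : Fin N} (hz : ∀ j, j ≤ z) :
    Flg (Z := zu0 l he h1) (rowsC Q l h1) (fun _ => 0) z where
  lst := hz
  dep := fun j => Eventually.of_forall fun k ω _ i hi => by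
    have h2 : i ∈ (MvPolynomial.X j : MvPolynomial (Fin N) ℝ).vars := hi
    rw [vars_X, Finset.mem_singleton] at h2
    rw [h2]
    exact Nat.lt_succ_self _
  ge := fun j ε hε => by
    refine Typ.mono (S := l.sp) Typ_true (Eventually.of_forall fun k ω _ _ => ?_)
    show (2 : ℝ) ^ ((0 - ε) * (S.F k).n) ≤ |eval (Q.v k ((l k).p.π ω)) (pderiv j (MvPolynomial.X j))|
    rw [pderiv_X_self, map_one, abs_one]
    apply Real.rpow_le_one_of_one_le_of_nonpos (by norm_num)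
    have := mul_nonneg hε.le (S.F k).pos.le
    linarith
  le := fun ε hε => by
    refine Typ.mono (S := l.sp) Typ_true (Eventually.of_forall fun k ω _ _ y _ => ?_)
    show |eval y (pderiv z (MvPolynomial.X z))| ≤ (2 : ℝ) ^ ((0 + ε) * (S.F k).n)
    rw [pderiv_X_self, map_one, abs_one]
    apply Real.one_le_rpow (by norm_num)
    have := mul_nonneg hε.le (S.F k).pos.le
    linarith
  h0 := fun _ => le_rfl
  h1 := fun _ => by
    show (0 : ℝ) + e ≤ 1
    linarith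

/-- TOP OVER A LABEL, unit `e` -/
theorem topE_bas {Q : S.VV N} {l : Lab S} {e : ℝ} {he : 0 < e} {h1 : e ≤ 1} {z : Fin N} (hz : ∀ j, j ≤ z)
    {ρ t t' : ℝ} (hT : TopE Q z ρ t) (ht1 : t' ≤ 1) (ht : e * t' ≤ t)
    (hnum : NumE (Z := zu0 l he h1) Q (xC Q l he h1) (fun _ => 0) z t') : TopE (xC Q l he h1) z ρ t' :=
  topE_zoom (flgC Q l he h1 hz) (xC_isX Q l he h1) hT ht1 (by
    show (0 : ℝ) + e * t' ≤ t
    linarith) hnum

/-- **TOP IS INHERITED BY TRUNCATIONS** -/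
theorem topE_trn {Q : S.VV N} {e : ℝ} {he : 0 < e} {h1 : e ≤ 1} {z : Fin N} (hz : ∀ j, j ≤ z)
    {ρ t t' : ℝ} (hT : TopE Q z ρ t) (ht1 : t' ≤ 1) (ht : e * t' ≤ t)
    (hnum : NumE (Z := zu0 (Lab.ofZ S.tr) he h1) Q (xC Q (Lab.ofZ S.tr) he h1) (fun _ => 0) z t') :
    TopE (Q.chg S.tr e he) z ρ t' := topE_bas hz hT ht1 ht hnum

/-! ### restriction, monotonicity, the deficit -/

/-- TOP on events of extensions -/
theorem TopE.im_ev {Q : S.VV N} {z : Fin N} {ρ l : ℝ} (hT : TopE Q z ρ l) {T : Sp} (p : Pj T S)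
    (A : ∀ k, (T.F k).Ω → Prop) (hA : 0 < ul (T.pr A)) : TopE (Q.im p A) z ρ l := by
  intro T' p' A' hA'
  obtain ⟨W, q, B, hB, h1⟩ := Pool.Agent.Helper81.CPY.im_im (M := N) (E := fun _ => 0) (ι := Empty) p A hA p' A' hA'
  have h2 := Pool.Agent.Helper81.CPY.sig_pred (fun S' (s : MSys S' N (fun _ => 0) Empty) => TopQ s.Q z ρ l)
    (h1 ⟨Q, fun i => i.elim⟩)
  exact h2.2 (hT W q B hB)

theorem TopQ.mono {Q : S.VV N} {z : Fin N} {ρ ρ' l l' : ℝ} (h : TopQ Q z ρ l) (hρ : ρ' ≤ ρ) (hl : l' ≤ l) :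
    TopQ Q z ρ' l' := by
  intro a b ha hab hb
  refine (h a b ha hab (hb.trans hl)).trans ?_
  apply mul_le_mul_of_nonneg_right _ (by linarith)
  linarith

theorem TopE.mono {Q : S.VV N} {z : Fin N} {ρ ρ' l l' : ℝ} (h : TopE Q z ρ l) (hρ : ρ' ≤ ρ) (hl : l' ≤ l) :
    TopE Q z ρ' l' := fun T p A hA => (h T p A hA).mono hρ hl

/-- the other coordinates have at most `N - 1` digits -/
theorem oth_H_le {Q : S.VV N} {z : Fin N} {b : ℝ} (hb : 0 ≤ b) : H ((oth Q z).dg b) ≤ (N - 1 : ℝ) * b := by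
  cases N with
  | zero => exact z.elim0
  | succ M =>
    obtain ⟨Q', hQ'⟩ : ∃ Q' : S.VV M, ∀ k ω i, Q'.v k ω i = Q.v k ω (z.succAbove i) := by
      obtain ⟨L, hL, hb⟩ := Q.bd
      exact ⟨⟨fun k ω i => Q.v k ω (z.succAbove i), L, hL, hb.mono fun k h1 ω hω i => h1 ω hω _⟩, fun _ _ _ => rfl⟩
    have k1 : (oth Q z).dg b ≤ Q'.dg b := by
      apply VV.dg_le_dg _ _ _ _ (fun _ _ => True) Typ_true (fun _ => 1) (S.Sub_const zero_le_one)
      refine Eventually.of_forall fun k ω ω' _ _ _ _ _ g i => ?_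
      rw [one_mul]
      show |(if i = z then 0 else Q.v k ω i) - (if i = z then 0 else Q.v k ω' i)| ≤ S.dl b k
      by_cases h3 : i = z
      · rw [if_pos h3, if_pos h3, sub_zero, abs_zero]
        exact (S.dl_pos b k).le
      · rw [if_neg h3, if_neg h3]
        obtain ⟨j, rfl⟩ := Fin.exists_succAbove_eq h3
        rw [← hQ', ← hQ']
        exact g j
    refine (H_mono k1).trans ((Q'.H_dg_le hb).trans (le_of_eq ?_))
    push_cast
    ring

/-- **TOP GIVES A DEFICIENT POINT** -/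
theorem TopQ.defect {Q : S.VV N} {z : Fin N} {ρ l : ℝ} (hT : TopQ Q z ρ l) (h0 : 0 ≤ l) (h1 : l ≤ 1) :
    H (Q.dg 1) ≤ N - ρ * l := by
  have k1 : Q.dg 1 ≤ (oth Q z).dg 1 ⊔ (Q.co z).dg 1 := by
    apply VV.dg_le_dg2 _ _ _ _ _ _ (fun _ _ => True) Typ_true (fun _ => 1) (S.Sub_const zero_le_one)
    refine Eventually.of_forall fun k ω ω' _ _ _ _ _ g g' i => ?_
    rw [one_mul]
    by_cases h3 : i = z
    · rw [h3]
      exact g' 0
    · have h4 : |(if i = z then 0 else Q.v k ω i) - (if i = z then 0 else Q.v k ω' i)| ≤ S.dl 1 k := g i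
      rw [if_neg h3, if_neg h3] at h4
      exact h4
  have k2 : H (Q.dg 1) ≤ H ((oth Q z).dg 1) + h ((Q.co z).dg 1) ((oth Q z).dg 1) := by
    refine (H_mono k1).trans (le_of_eq ?_)
    have h2 := h_chain ((oth Q z).dg 1) ((Q.co z).dg 1) ⊥
    rw [h_bot, h_bot, sup_bot_eq] at h2
    exact h2
  have k3 := oth_H_le (Q := Q) (z := z) (b := 1) zero_le_one
  have k4 := h_triangle ((Q.co z).dg 1) ((Q.co z).dg l) ((oth Q z).dg 1)
  have k5 : h ((Q.co z).dg 1) ((Q.co z).dg l ⊔ (oth Q z).dg 1) ≤ 1 - l := by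
    refine (h_anti le_sup_left).trans ?_
    have h2 := (Q.co z).h_dg_dg h1
    rw [Nat.cast_one, one_mul] at h2
    exact h2
  have k6 := hT 0 l le_rfl h0 le_rfl
  rw [(Q.co z).dg_nonpos le_rfl, bot_sup_eq, sub_zero] at k6
  nlinarith

end

end Pool.Agent.Helper77.TPX
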